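import Mathlib
import Pool.Agent.H.MP_c8cc4c_co.Iface
import Pool.Agent.H.MP_c8cc4c_co.B.ConnF
import Pool.Agent.H.MP_c8cc4c_co.B.Sdist
import Pool.Agent.H.MP_c8cc4c_co.B.Tau
import Pool.Agent.H.MP_c8cc4c_co.B.Star
import Pool.Agent.H.MP_c8cc4c_co.F.SdA

/-! # MP_c8cc4c_co, part P (pages), definitions (helper35) -/

open scoped Classical
open Finset

noncomputable section

namespace Pool.Agent.H.MP_c8cc4c_co.Pg

/-- the vertices of a cell -/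
def cvs (M : PC) : M.Cell → Set M.V
  | Sum.inl x => {x}
  | Sum.inr (Sum.inl e) => {x | M.inc e x}
  | Sum.inr (Sum.inr f) => {x | M.At f x}

theorem mem_cvs_cv {M : PC} {x z : M.V} : z ∈ cvs M (M.cv x) ↔ z = x := Iff.rfl
theorem mem_cvs_ce {M : PC} {e : M.E} {z : M.V} : z ∈ cvs M (M.ce e) ↔ M.inc e z := Iff.rfl
theorem mem_cvs_cf {M : PC} {f : M.F} {z : M.V} : z ∈ cvs M (M.cf f) ↔ M.At f z := Iff.rfl

/-- cells all of whose vertices are in `C` -/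
def full (M : PC) (C : Set M.V) : Set M.Cell := {c | cvs M c ⊆ C}

/-- cells with a vertex in `C` and a vertex outside `C` -/
def front (M : PC) (C : Set M.V) : Set M.Cell :=
  {c | (∃ x ∈ cvs M c, x ∈ C) ∧ ∃ y ∈ cvs M c, y ∉ C}

/-- `x` is at distance at most `n` from the complement of `Q` -/
def NearO (M : PC) (Q : Set M.V) (n : ℕ) (x : M.V) : Prop :=
  ∃ y, y ∉ Q ∧ Near M.graph Set.univ n x y

/-- the item of `u`: `{u}` for `u ∈ V0`, otherwise the component of `Q \ V0` which contains `u` -/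
def itm (M : PC) (Q V0 : Set M.V) (u : M.V) : Set M.V :=
  if u ∈ V0 then {u} else comp M.graph (Q \ V0) u

/-- representatives: `rp u = u` for `u ∈ V0`, otherwise a vertex of `V0` adjacent to the component of `u` -/
structure Rep (M : PC) (Q V0 : Set M.V) (rp : M.V → M.V) : Prop where
  id : ∀ u ∈ V0, rp u = u
  mem : ∀ u ∈ Q, rp u ∈ V0
  adj : ∀ u ∈ Q, u ∉ V0 → ∃ z ∈ itm M Q V0 u, M.graph.Adj z (rp u)
  const : ∀ u ∈ Q, ∀ w ∈ Q, itm M Q V0 u = itm M Q V0 w → rp u = rp w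

/-- the first half of `OSTOut`: the children -/
structure Kids (M : PC) (Q V0 : Set M.V) (r Λ : ℕ) : Prop where
  sub : V0 ⊆ Q
  compl : ∀ C, IsComp M.graph (Q \ V0) C → ConnOn M.graph Cᶜ
  cut : ∀ C, IsComp M.graph (Q \ V0) C → (M.cut C).card ≤ Λ
  far : ∀ C, IsComp M.graph (Q \ V0) C → ∀ x ∈ C, ¬ NearO M Q r x

/-- the second half of `OSTOut`: the set `S` of cells -/
structure SOut (M : PC) (Q V0 : Set M.V) (S : Set M.Cell) (r rf C1 C2 : ℕ) : Prop where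
  conn : ConnOn M.sd S
  conn' : ConnOn M.sd Sᶜ
  down : ∀ c d, M.below c d → d ∈ S → c ∈ S
  face : ∀ f, M.cf f ∈ S → ∀ x, M.At f x → x ∉ Q
  reach : ∀ x ∈ V0, NearO M Q rf x ∨ ∃ s ∈ V0, M.cv s ∈ S ∧ Near M.graph V0 C1 x s
  qi : ∀ x ∈ Q, ∀ y ∈ Q, M.cv x ∈ S → M.cv y ∈ S → ¬ NearO M Q rf x → ¬ NearO M Q rf y →
    Near M.graph Set.univ (3 * r) x y → Near M.sd S C2 (M.cv x) (M.cv y)
  far : ∀ x ∈ Q, x ∉ V0 → ∀ y, M.cv y ∈ S → ¬ Near M.graph Set.univ (2 * r + 4) x y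

theorem ost_split {M : PC} {Q : Set M.V} {r Λ rf C1 C2 : ℕ} (h : OSTOut M Q r Λ rf C1 C2) :
    ∃ V0, Kids M Q V0 r Λ ∧
      ((∀ x ∈ V0, NearO M Q rf x) ∨ ∃ S, SOut M Q V0 S r rf C1 C2) := by
  obtain ⟨V0, h0, h1, h2⟩ := h
  refine ⟨V0, ⟨h0, fun C hC => (h1 C hC).1, fun C hC => (h1 C hC).2.1, ?_⟩, ?_⟩
  · rintro C hC x hx ⟨y, hy, hn⟩
    exact (h1 C hC).2.2 x hx y hy hn
  · rcases h2 with h2 | ⟨S, h2, h3, h4, h5, h6, h7, h8⟩
    · exact Or.inl h2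
    · refine Or.inr ⟨S, h2, h3, h4, h5, h6, ?_, h8⟩
      intro x hx y hy hxS hyS hxO hyO hn
      exact h7 x hx y hy hxS hyS (fun z hz hn' => hxO ⟨z, hz, hn'⟩)
        (fun z hz hn' => hyO ⟨z, hz, hn'⟩) hn

/-- The anchor `t` of the vertex `x` of `V0`: a vertex of `V0` with `cv t ∈ S`, and a cell `c` outside
`S` above it, to which `x` is linked outside `S`. -/
structure Anchor (M : PC) (V0 : Set M.V) (S : Set M.Cell) (r C1 : ℕ) (x t : M.V) (c : M.Cell) :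
    Prop where
  mem : t ∈ V0
  tS : M.cv t ∈ S
  cS : c ∉ S
  bel : M.below (M.cv t) c
  near : Near M.graph Set.univ C1 x t
  short : ∀ s, M.cv s ∈ S → Near M.graph Set.univ r x s → Near M.graph Set.univ r x t
  link : M.cv x ∉ S → ∃ K : Set M.Cell, ConnOn M.sd K ∧ K ⊆ Sᶜ ∧ M.cv x ∈ K ∧ c ∈ K ∧
    ∀ d ∈ K, ∀ z ∈ cvs M d, Near M.graph Set.univ C1 x z

/-- the contour edge `g (idx x)` belongs to the anchor of `x`, for the vertices of `V0` far from the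
complement of `Q` -/
def IdxOK (M : PC) (Q V0 : Set M.V) (S : Set M.Cell) (r rf C1 : ℕ) (g : ℕ → M.sdPC.E)
    (idx : M.V → ℕ) : Prop :=
  ∀ x ∈ V0, ¬ NearO M Q (r + rf) x → ∃ t, (g (idx x)).1.1 = M.cv t ∧
    Anchor M V0 S r C1 x t (g (idx x)).1.2

/-- a connected set of cells in `A`, near `u`, which contains an end of `e` and an end of `e'` -/
def Lnk (M : PC) (A : Set M.Cell) (R : ℕ) (e e' : M.sdPC.E) (u : M.V) : Prop :=
  ∃ P : Set M.Cell, ConnOn M.sd P ∧ P ⊆ A ∧ (∃ c ∈ P, M.sdPC.inc e c) ∧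
    (∃ c ∈ P, M.sdPC.inc e' c) ∧ ∀ d ∈ P, ∀ z ∈ cvs M d, Near M.graph Set.univ R u z

/-- Layout of the region `Q`: an order of the vertices and pages with labels in `Bool × β` for the pairs
at distance at most `r`. -/
def Lay (M : PC) (r : ℕ) (β : Type) (Q : Set M.V) : Prop :=
  ∃ (ord : M.V → ℕ) (pg : M.V → M.V → Bool × β), Set.InjOn ord Q ∧
    (∀ x ∈ Q, ∀ u ∈ Q, ∀ y ∈ Q, ∀ w ∈ Q, Near M.graph Set.univ r x u →
      Near M.graph Set.univ r y w → ord x < ord y → ord y < ord u → ord u < ord w →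
      pg x u ≠ pg y w) ∧
    (∀ u ∈ Q, ∀ w ∈ Q, Near M.graph Set.univ r u w → (pg u w).1 = true →
      ∀ x ∈ Q, NearO M Q r x → ord u < ord x → ord x < ord w → False)

/-- distance of a vertex to its representative -/
def Rrep (r Λ : ℕ) : ℕ := r + 6 * Λ + 2

/-- radius of the links -/
def Rlk (r Λ C1 C2 : ℕ) : ℕ := 3 * r + 6 * Λ + C1 + 2 * C2 + 2

/-- radius of the colouring -/
def Rcol (r Λ C1 C2 : ℕ) : ℕ := 2 * Rlk r Λ C1 C2 + 2 * Rrep r Λ + 2 * C1 + r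

/-- radius of the star vertices -/
def RX (r rf Λ : ℕ) : ℕ := r + rf + Rrep r Λ

/-- the labels of the pages -/
def Lab (D r Λ Λ' rf C1 C2 : ℕ) : Type :=
  Fin (2 * Λ' * (D + 1) ^ (RX r rf Λ) + 1) ⊕
    (Bool × Fin ((D + 1) ^ (Rcol r Λ C1 C2)) × Fin ((D + 1) ^ (Rcol r Λ C1 C2)))

instance (D r Λ Λ' rf C1 C2 : ℕ) : Fintype (Lab D r Λ Λ' rf C1 C2) := by
  unfold Lab; infer_instance

end Pool.Agent.H.MP_c8cc4c_co.Pg
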