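import Mathlib
import Pool.Agent.H.MP_c8cc4c_co.P.Defs

/-! # MP_c8cc4c_co, part P (pages), file Geo: cells and distances (helper35) -/

open scoped Classical
open Finset

noncomputable section

namespace Pool.Agent.H.MP_c8cc4c_co.Pg

variable {M : PC}

/-- Every cell has a vertex. Edges: `inc_two`; faces: `face_ne` and `inc_two`. -/
theorem cvs_nonempty (hM : M.IsSphere) (c : M.Cell) : (cvs M c).Nonempty := by
  rcases c with x | e | f
  · exact ⟨x, rfl⟩
  · obtain ⟨x, y, -, h⟩ := hM.inc_two e
    exact ⟨x, (h x).2 (Or.inl rfl)⟩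
  · obtain ⟨e, he⟩ := hM.face_ne f
    obtain ⟨x, y, -, h⟩ := hM.inc_two e
    exact ⟨x, e, he, (h x).2 (Or.inl rfl)⟩

/-- The vertices of a face of a cell: case distinction (vertex-edge: `inc`, vertex-face: `At`; edge-face: `At f x`
is `∃ e, bd f e ∧ inc e x`). -/
theorem cvs_below {c d : M.Cell} (h : M.below c d) : cvs M c ⊆ cvs M d := by
  rcases c with x | e | f <;> rcases d with x' | e' | f'
  · exact absurd h id
  · rintro z rfl
    exact h
  · rintro z rfl
    exact h
  · exact absurd h id
  · exact absurd h id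
  · intro z hz
    exact ⟨e, h, hz⟩
  · exact absurd h id
  · exact absurd h id
  · exact absurd h id

/-- Two vertices of one cell are at distance at most two: edges `inc_adj`, faces `face_near` (B/Tau). -/
theorem cvs_near (hM : M.IsSphere) (hQ : M.Quad) {c : M.Cell} {x y : M.V} (hx : x ∈ cvs M c)
    (hy : y ∈ cvs M c) : Near M.graph Set.univ 2 x y := by
  by_cases hxy : x = y
  · subst hxy
    exact near_mono (near_refl (Set.mem_univ _)) (Nat.zero_le _) subset_rfl
  rcases c with v | e | f
  · exact absurd ((show x = v from hx).trans (show y = v from hy).symm) hxy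
  · exact near_mono (near_adj (Set.mem_univ _) (Set.mem_univ _) (inc_adj hM hx hy hxy))
      (by omega) subset_rfl
  · exact face_near hM hQ hx hy

/-- Induction on `n` with `near_succ`: if `c ~ c'` then (`sd_adj`) one is below the other, so (`cvs_below`,
`cvs_nonempty`) there is a common vertex `w`; `x`, `w` are at distance at most 2 (`cvs_near`), and the induction
hypothesis applies to `w ∈ cvs c'`. -/
theorem sd_near_cvs (hM : M.IsSphere) (hQ : M.Quad) {A : Set M.Cell} {n : ℕ} {c d : M.Cell}
    (h : Near M.sd A n c d) {x y : M.V} (hx : x ∈ cvs M c) (hy : y ∈ cvs M d) :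
    Near M.graph Set.univ (2 * n + 2) x y := by
  induction n generalizing c x with
  | zero =>
    obtain ⟨rfl, -⟩ := near_zero.1 h
    exact cvs_near hM hQ hx hy
  | succ n ih =>
    rcases near_succ.1 h with h | ⟨-, c', hcc, h⟩
    · exact near_mono (ih h hx) (by omega) subset_rfl
    · obtain ⟨w, hw, hw'⟩ : ∃ w, w ∈ cvs M c ∧ w ∈ cvs M c' := by
        rcases (sd_adj c c').1 hcc with hb | hb
        · obtain ⟨w, hw⟩ := cvs_nonempty hM c
          exact ⟨w, hw, cvs_below hb hw⟩
        · obtain ⟨w, hw⟩ := cvs_nonempty hM c'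
          exact ⟨w, cvs_below hb hw, hw⟩
      exact near_mono (near_trans (cvs_near hM hQ hx hw) (ih h hw')) (by omega) subset_rfl

/-- The cells of a walk. Induction on `n` with `near_succ`: `K = {cv x}` for `n = 0`; for a step `x ~ x'` with the edge `e`
and the set `K'` for `x'` take `K = K' ∪ {cv x, ce e}` (`connOn_union_adj` twice or `connOn_of_center`; `sd_adj_ve`). -/
theorem near_cells (hM : M.IsSphere) {A : Set M.V} {n : ℕ} {x y : M.V}
    (h : Near M.graph A n x y) : ∃ K : Set M.Cell, ConnOn M.sd K ∧ M.cv x ∈ K ∧ M.cv y ∈ K ∧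
      ∀ c ∈ K, (∃ z ∈ cvs M c, z ∈ A) ∧ ∀ z ∈ cvs M c, Near M.graph Set.univ n x z := by
  induction n generalizing x with
  | zero =>
    obtain ⟨rfl, hx⟩ := near_zero.1 h
    refine ⟨{M.cv x}, connOn_singleton _, rfl, rfl, ?_⟩
    rintro c rfl
    refine ⟨⟨x, rfl, hx⟩, ?_⟩
    rintro z hz
    have : z = x := hz
    subst this
    exact near_refl (Set.mem_univ _)
  | succ n ih =>
    rcases near_succ.1 h with h | ⟨hx, x', hxx, h⟩
    · obtain ⟨K, h1, h2, h3, h4⟩ := ih h
      exact ⟨K, h1, h2, h3, fun c hc => ⟨(h4 c hc).1, fun z hz =>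
        near_mono ((h4 c hc).2 z hz) (Nat.le_succ _) subset_rfl⟩⟩
    · obtain ⟨K, h1, h2, h3, h4⟩ := ih h
      obtain ⟨hne, e, he, he'⟩ := hxx
      have h5 : ConnOn M.sd (K ∪ {M.ce e}) :=
        connOn_union_adj h1 (connOn_singleton _) ⟨M.cv x', h2, M.ce e, rfl, sd_adj_ve.2 he'⟩
      have h6 : ConnOn M.sd (K ∪ {M.ce e} ∪ {M.cv x}) :=
        connOn_union_adj h5 (connOn_singleton _)
          ⟨M.ce e, Or.inr rfl, M.cv x, rfl, (sd_adj_ve.2 he).symm⟩
      refine ⟨K ∪ {M.ce e} ∪ {M.cv x}, h6, Or.inr rfl, Or.inl (Or.inl h3), ?_⟩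
      have hadj : M.graph.Adj x x' := ⟨hne, e, he, he'⟩
      rintro c ((hc | rfl) | rfl)
      · refine ⟨(h4 c hc).1, fun z hz => ?_⟩
        have := near_trans (near_adj (A := Set.univ) (Set.mem_univ _) (Set.mem_univ _) hadj)
          ((h4 c hc).2 z hz)
        exact near_mono this (by omega) subset_rfl
      · refine ⟨⟨x, he, hx⟩, fun z hz => ?_⟩
        have hz' : M.inc e z := hz
        by_cases hxz : x = z
        · subst hxz
          exact near_mono (near_refl (Set.mem_univ _)) (Nat.zero_le _) subset_rfl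
        · exact near_mono (near_adj (Set.mem_univ _) (Set.mem_univ _) (inc_adj hM he hz' hxz))
            (by omega) subset_rfl
      · refine ⟨⟨x, rfl, hx⟩, fun z hz => ?_⟩
        have : z = x := hz
        subst this
        exact near_mono (near_refl (Set.mem_univ _)) (Nat.zero_le _) subset_rfl

/-- A walk all of whose vertices lie in `B`, because they are near both ends (general graph; use the walk `p`
and `p.takeUntil`, `p.dropUntil`). -/
theorem near_sub2 {V : Type} {G : SimpleGraph V} {A B : Set V} {n : ℕ} {x y : V}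
    (h : Near G A n x y) (hB : ∀ z, Near G A n x z → Near G A n z y → z ∈ B) :
    Near G (A ∩ B) n x y := by
  obtain ⟨p, h1, h2⟩ := h
  refine ⟨p, h1, fun v hv => ⟨h2 v hv, hB v ?_ ?_⟩⟩
  · exact ⟨p.takeUntil v hv, (p.length_takeUntil_le hv).trans h1,
      fun w hw => h2 w (p.support_takeUntil_subset_support hv hw)⟩
  · exact ⟨p.dropUntil v hv, (p.length_dropUntil_le hv).trans h1,
      fun w hw => h2 w (p.support_dropUntil_subset_support hv hw)⟩

theorem nearO_mono {Q : Set M.V} {m n : ℕ} (hmn : m ≤ n) {x : M.V} (h : NearO M Q m x) :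
    NearO M Q n x := by
  obtain ⟨y, hy, h⟩ := h
  exact ⟨y, hy, near_mono h hmn subset_rfl⟩

theorem nearO_near {Q : Set M.V} {m n : ℕ} {x y : M.V} (h : Near M.graph Set.univ m x y)
    (h' : NearO M Q n y) : NearO M Q (m + n) x := by
  obtain ⟨z, hz, h'⟩ := h'
  exact ⟨z, hz, near_trans h h'⟩

end Pool.Agent.H.MP_c8cc4c_co.Pg
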