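import Mathlib
import Pool.Agent.H.MP_c8cc4c_co.P.Geo

/-! # MP_c8cc4c_co, part P (pages), file Count: counting and colouring (helper35) -/

open scoped Classical
open Finset

noncomputable section

namespace Pool.Agent.H.MP_c8cc4c_co.Pg

variable {M : PC}

/-- Number of vertices of `Q` near the complement. By `near_exit` a walk from `x ∈ Q` to `y ∉ Q` of length at most `n` contains
an edge `uv`, `u ∈ Q`, `v ∉ Q`, with `Near n x u`; so `u` is an end of an edge of `cut Q`; there are at most `2 |cut Q|` such
ends (`ncard` of the union over the edges of `cut Q` of the two ends, `inc_two`); `ball_card_set` (with `nbr_card`). -/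
theorem nearO_card (hM : M.IsSphere) (D : ℕ) (hD : ∀ v, M.deg v ≤ D) (Q : Set M.V) (n : ℕ) :
    {x | x ∈ Q ∧ NearO M Q n x}.ncard ≤ 2 * (M.cut Q).card * (D + 1) ^ n := by
  have hD' : ∀ v, (univ.filter fun u => M.graph.Adj v u).card ≤ D := fun v =>
    (nbr_card hM v).trans (hD v)
  obtain ⟨X, hX⟩ : ∃ X : Set M.V, X = {u | ∃ e ∈ M.cut Q, M.inc e u} := ⟨_, rfl⟩
  obtain ⟨c, hc⟩ : ∃ c : ℕ, c = (M.cut Q).card := ⟨_, rfl⟩
  have h1 := ball_card_set D hD' Set.univ n X
  have h2 : X.ncard ≤ 2 * c := by
    have h3 : X = (((M.cut Q).biUnion fun e => univ.filter fun u => M.inc e u : Finset M.V) :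
        Set M.V) := by
      rw [hX]
      ext u
      simp only [Set.mem_setOf_eq, Finset.coe_biUnion, Set.mem_iUnion, Finset.mem_coe,
        Finset.mem_filter, Finset.mem_univ, true_and, exists_prop]
    rw [h3, Set.ncard_coe_finset, Nat.mul_comm, hc]
    refine Finset.card_biUnion_le_card_mul _ _ _ fun e _ => ?_
    obtain ⟨a, b, -, hab⟩ := hM.inc_two e
    have h4 : (univ.filter fun u => M.inc e u) ⊆ ({a, b} : Finset M.V) := by
      intro u hu
      rw [Finset.mem_insert, Finset.mem_singleton]
      exact (hab u).1 (Finset.mem_filter.1 hu).2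
    exact (Finset.card_le_card h4).trans Finset.card_le_two
  have h5 : {x | x ∈ Q ∧ NearO M Q n x} ⊆
      ((univ.filter fun y => ∃ x ∈ X, Near M.graph Set.univ n x y : Finset M.V) : Set M.V) := by
    rintro x ⟨hx, y, hy, hn⟩
    obtain ⟨u, v, k, l, hkl, h6, h7, h8, -⟩ := near_exit hn hx hy
    rw [Finset.mem_coe, Finset.mem_filter]
    refine ⟨mem_univ _, u, ?_, near_symm (near_mono h6 (by omega) (Set.subset_univ _))⟩
    obtain ⟨-, e, he, he'⟩ := h7
    rw [hX]
    refine ⟨e, ?_, he⟩
    unfold PC.cut
    rw [Finset.mem_filter]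
    exact ⟨mem_univ _, ⟨u, he, (near_right h6).2⟩, v, he', h8⟩
  have h9 := Set.ncard_le_ncard h5 (Set.toFinite _)
  rw [Set.ncard_coe_finset] at h9
  rw [← hc]
  refine h9.trans (h1.trans ?_)
  exact Nat.mul_le_mul_right _ h2

/-- Greedy colouring: a finite set `V` with a symmetric relation `R`, every `x` has less than `K` elements `y ≠ x` with
`R x y`. Induction over a finite set `s` of vertices: the colouring of `s` extends to `insert a s`, since the colours of the
related elements do not exhaust `Fin K`. -/
theorem greedy {V : Type} [Fintype V] (R : V → V → Prop) (hR : ∀ x y, R x y → R y x) (K : ℕ)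
    (hK : ∀ x, (univ.filter fun y => y ≠ x ∧ R x y).card < K) :
    ∃ col : V → Fin K, ∀ x y, x ≠ y → R x y → col x ≠ col y := by
  have key : ∀ s : Finset V, ∃ col : V → Fin K, ∀ x ∈ s, ∀ y ∈ s, x ≠ y → R x y →
      col x ≠ col y := by
    intro s
    induction s using Finset.induction_on with
    | empty =>
      rcases isEmpty_or_nonempty V with hV | ⟨⟨v⟩⟩
      · exact ⟨fun v => (hV.false v).elim, fun x hx => absurd hx (Finset.notMem_empty x)⟩
      · have hK0 : 0 < K := lt_of_le_of_lt (Nat.zero_le _) (hK v)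
        exact ⟨fun _ => ⟨0, hK0⟩, fun x hx => absurd hx (Finset.notMem_empty x)⟩
    | insert a s ha ih =>
      obtain ⟨col, hcol⟩ := ih
      obtain ⟨c, hc⟩ : ∃ c : Fin K, c ∉ (univ.filter fun y => y ≠ a ∧ R a y).image col := by
        by_contra hcon
        push Not at hcon
        have h1 : (univ : Finset (Fin K)) ⊆ (univ.filter fun y => y ≠ a ∧ R a y).image col :=
          fun c _ => hcon c
        have h2 := (Finset.card_le_card h1).trans Finset.card_image_le
        rw [Finset.card_univ, Fintype.card_fin] at h2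
        exact absurd (hK a) (not_lt.2 h2)
      have hc' : ∀ y, y ≠ a → R a y → col y ≠ c := by
        intro y hy hR' h
        exact hc (Finset.mem_image.2 ⟨y, Finset.mem_filter.2 ⟨mem_univ _, hy, hR'⟩, h⟩)
      refine ⟨Function.update col a c, fun x hx y hy hxy hR' => ?_⟩
      rw [Finset.mem_insert] at hx hy
      by_cases hxa : x = a
      · subst hxa
        rw [Function.update_self, Function.update_of_ne (Ne.symm hxy)]
        exact (hc' y (Ne.symm hxy) hR').symm
      · by_cases hya : y = a
        · subst hya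
          rw [Function.update_self, Function.update_of_ne hxy]
          exact hc' x hxy (hR _ _ hR')
        · rw [Function.update_of_ne hxa, Function.update_of_ne hya]
          exact hcol x (hx.resolve_left hxa) y (hy.resolve_left hya) hxy hR'
  obtain ⟨col, h⟩ := key univ
  exact ⟨col, fun x y => h x (mem_univ _) y (mem_univ _)⟩

/-- Colouring at distance `R`: `greedy` with `Near M.graph Set.univ R`, `ball_card` (the ball contains `x` itself, so less
than `(D+1)^R` other elements), `nbr_card`. -/
theorem exists_col (hM : M.IsSphere) (D : ℕ) (hD : ∀ v, M.deg v ≤ D) (R : ℕ) :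
    ∃ col : M.V → Fin ((D + 1) ^ R), ∀ x y, x ≠ y → Near M.graph Set.univ R x y →
      col x ≠ col y := by
  have hD' : ∀ v, (univ.filter fun u => M.graph.Adj v u).card ≤ D := fun v =>
    (nbr_card hM v).trans (hD v)
  refine greedy (fun x y => Near M.graph Set.univ R x y) (fun x y h => near_symm h) _ fun x => ?_
  refine lt_of_lt_of_le (Finset.card_lt_card ?_) (ball_card D hD' Set.univ R x)
  rw [Finset.ssubset_iff_of_subset]
  · refine ⟨x, ?_, ?_⟩
    · rw [Finset.mem_filter]
      exact ⟨mem_univ _, near_mono (near_refl (Set.mem_univ _)) (Nat.zero_le _) subset_rfl⟩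
    · rw [Finset.mem_filter]
      exact fun h => h.2.1 rfl
  · intro y hy
    rw [Finset.mem_filter] at hy ⊢
    exact ⟨hy.1, hy.2.2⟩

/-- A finite set with at most `N` elements has an injective numbering with values `≤ N`. -/
theorem exists_num {V : Type} [Fintype V] (X : Set V) (N : ℕ) (h : X.ncard ≤ N) :
    ∃ f : V → Fin (N + 1), Set.InjOn f X := by
  have h1 : X.toFinset.card ≤ N := by
    rw [← Set.ncard_eq_toFinset_card']
    exact h
  refine ⟨fun v => if hv : v ∈ X.toFinset then
    ⟨(X.toFinset.equivFin ⟨v, hv⟩).val, by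
      have := (X.toFinset.equivFin ⟨v, hv⟩).2
      omega⟩ else 0, ?_⟩
  intro x hx y hy hxy
  have hx' : x ∈ X.toFinset := Set.mem_toFinset.2 hx
  have hy' : y ∈ X.toFinset := Set.mem_toFinset.2 hy
  simp only [dif_pos hx', dif_pos hy', Fin.mk.injEq] at hxy
  have h2 := X.toFinset.equivFin.injective (Fin.ext hxy)
  exact congrArg Subtype.val h2

end Pool.Agent.H.MP_c8cc4c_co.Pg
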