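import Mathlib
import Pool.Agent.H.MP_c8cc4c_co.P.Geo
import Pool.Agent.H.MP_c8cc4c_co.B.Conn
import Pool.Agent.H.MP_c8cc4c_co.B.Star
import Pool.Agent.H.MP_c8cc4c_co.F.SdA
import Pool.Agent.H.MP_c8cc4c_co.F.Enum

/-! # MP_c8cc4c_co, part P (pages), file Anch: anchors (helper35) -/

open scoped Classical
open Finset

noncomputable section

namespace Pool.Agent.H.MP_c8cc4c_co.Pg

variable {M : PC} {Q V0 : Set M.V} {S : Set M.Cell} {r rf Λ C1 C2 : ℕ}

theorem anch_pair (M : PC) {x : M.V} {e : M.E} (h : M.inc e x) :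
    ConnOn M.sd ({M.cv x, M.ce e} : Set M.Cell) := by
  have h2 : Near M.sd ({M.cv x, M.ce e} : Set M.Cell) 1 (M.cv x) (M.ce e) :=
    near_adj (Or.inl rfl) (Or.inr rfl) (sd_adj_ve.2 h)
  refine connOn_of_center (x := M.cv x) (Or.inl rfl) ?_
  rintro y (rfl | rfl)
  · exact ⟨0, near_refl (Or.inl rfl)⟩
  · exact ⟨1, h2⟩

theorem anch_pair_near (hM : M.IsSphere) {x y : M.V} {e : M.E} (hx : M.inc e x) (hy : M.inc e y)
    (hxy : x ≠ y) {d : M.Cell} (hd : d ∈ ({M.cv x, M.ce e} : Set M.Cell)) {z : M.V}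
    (hz : z ∈ cvs M d) : Near M.graph Set.univ 1 x z := by
  rcases hd with rfl | hd
  · rw [mem_cvs_cv] at hz
    rw [hz]
    exact near_mono (near_refl (Set.mem_univ _)) (Nat.zero_le _) subset_rfl
  · rw [Set.mem_singleton_iff] at hd
    rw [hd, mem_cvs_ce] at hz
    by_cases hzx : z = x
    · rw [hzx]
      exact near_mono (near_refl (Set.mem_univ _)) (Nat.zero_le _) subset_rfl
    · exact near_adj (Set.mem_univ _) (Set.mem_univ _) (inc_adj hM hx hz (Ne.symm hzx))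

/-- Induction on `n = sdist M.graph V0 {s | cv s ∈ S} x` (B/Sdist). `n = 0`: `x ∈ S` (`sdist_zero`), `t = x`, `c = cf f` for a face `f` at `x`
(`exists_at`, `hne`); `cf f ∉ S` by `SOut.face` since `x ∈ Q`; the link condition is void. `n + 1`: `sdist_down` gives `y ∈ V0` adjacent to `x`
with `sdist y = n`; let `e` be the edge `xy`; `cv x ∉ S` (otherwise `sdist x = 0`), so `ce e ∉ S` (`down`). If `n = 0` then `cv y ∈ S`,
`t = y`, `c = ce e`, `K = {cv x, ce e}`. If `n > 0` then `cv y ∉ S`; take `t, c, K` for `y` and `K ∪ {cv x, ce e}`. -/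
theorem anchor_aux (hM : M.IsSphere) (hk : Kids M Q V0 r Λ) (hS : SOut M Q V0 S r rf C1 C2)
    (hne : ∃ x y : M.V, x ≠ y) (n : ℕ) (x : M.V) (hx : x ∈ V0)
    (hreach : ∃ s ∈ {s | M.cv s ∈ S}, ∃ k, Near M.graph V0 k x s)
    (hn : sdist M.graph V0 {s | M.cv s ∈ S} x = n) :
    ∃ t ∈ V0, M.cv t ∈ S ∧ ∃ c, c ∉ S ∧ M.below (M.cv t) c ∧ Near M.graph Set.univ n x t ∧
      (M.cv x ∉ S → ∃ K : Set M.Cell, ConnOn M.sd K ∧ K ⊆ Sᶜ ∧ M.cv x ∈ K ∧ c ∈ K ∧
        ∀ d ∈ K, ∀ z ∈ cvs M d, Near M.graph Set.univ n x z) := by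
  induction n generalizing x with
  | zero =>
    obtain ⟨hxS, -⟩ := (sdist_zero _ hreach).1 hn
    obtain ⟨a, b, hab⟩ := hne
    have hex : ∃ y, x ≠ y := by
      by_cases h : x = a
      · exact ⟨b, by rw [h]; exact hab⟩
      · exact ⟨a, h⟩
    obtain ⟨y, hy⟩ := hex
    obtain ⟨f, hf⟩ := exists_at hM hy
    refine ⟨x, hx, hxS, M.cf f, ?_, hf, near_refl (Set.mem_univ _), fun h => absurd hxS h⟩
    intro h
    exact hS.face f h x hf (hk.sub hx)
  | succ n ih =>
    obtain ⟨y, hyV, hxy, hyd⟩ := sdist_down _ hreach (by omega)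
    have hyn : sdist M.graph V0 {s | M.cv s ∈ S} y = n := by omega
    have hxS : M.cv x ∉ S := by
      intro h
      have h0 := (sdist_zero _ hreach).2 ⟨h, hx⟩
      omega
    obtain ⟨hne', e, hex, hey⟩ := hxy
    have heS : M.ce e ∉ S := fun h => hxS (hS.down _ _ (show M.below (M.cv x) (M.ce e) from hex) h)
    have hyreach : ∃ s ∈ {s | M.cv s ∈ S}, ∃ k, Near M.graph V0 k y s := by
      obtain ⟨s, hs, k, hk'⟩ := hreach
      exact ⟨s, hs, _, near_trans (near_adj hyV hx ⟨hne'.symm, e, hey, hex⟩) hk'⟩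
    have hadj1 : Near M.graph Set.univ 1 x y :=
      near_adj (Set.mem_univ _) (Set.mem_univ _) ⟨hne', e, hex, hey⟩
    have hpS : ({M.cv x, M.ce e} : Set M.Cell) ⊆ Sᶜ := by
      rintro d (rfl | hd)
      · exact hxS
      · rw [Set.mem_singleton_iff] at hd
        rw [hd]
        exact heS
    by_cases hyS : M.cv y ∈ S
    · refine ⟨y, hyV, hyS, M.ce e, heS, hey,
        near_mono hadj1 (by omega) subset_rfl, fun _ => ?_⟩
      refine ⟨{M.cv x, M.ce e}, anch_pair M hex, hpS, Or.inl rfl, Or.inr rfl, ?_⟩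
      intro d hd z hz
      exact near_mono (anch_pair_near hM hex hey hne' hd hz) (by omega) subset_rfl
    · obtain ⟨t, htV, htS, c, hcS, hbel, hnear, hlink⟩ := ih y hyV hyreach hyn
      obtain ⟨K, hK1, hK2, hK3, hK4, hK5⟩ := hlink hyS
      refine ⟨t, htV, htS, c, hcS, hbel,
        near_mono (near_trans hadj1 hnear) (by omega) subset_rfl, fun _ => ?_⟩
      refine ⟨K ∪ {M.cv x, M.ce e}, ?_, ?_, Or.inr (Or.inl rfl), Or.inl hK4, ?_⟩
      · exact connOn_union_adj hK1 (anch_pair M hex)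
          ⟨M.cv y, hK3, M.ce e, Or.inr rfl, sd_adj_ve.2 hey⟩
      · exact Set.union_subset hK2 hpS
      · rintro d (hd | hd) z hz
        · exact near_mono (near_trans hadj1 (hK5 d hd z hz)) (by omega) subset_rfl
        · exact near_mono (anch_pair_near hM hex hey hne' hd hz) (by omega) subset_rfl

/-- If `x ∈ V0` is not within `r` of the complement of `Q` and within `r` of `s` with `cv s ∈ S`, then a walk of length at most `r` lies in
`V0`: `near_sub2` with `B = V0`: a vertex `z` of the walk is in `Q` (it is within `r` of `x`), and if `z ∉ V0` then `SOut.far` is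
violated (`z` is within `r` of `s`). -/
theorem near_V0 (hS : SOut M Q V0 S r rf C1 C2) {x s : M.V} (hx : ¬ NearO M Q r x)
    (hs : M.cv s ∈ S) (h : Near M.graph Set.univ r x s) : Near M.graph V0 r x s := by
  have h1 := near_sub2 (B := V0) h (fun z hz1 hz2 => by
    by_contra hzV
    have hzQ : z ∈ Q := by
      by_contra hzQ
      exact hx ⟨z, hzQ, hz1⟩
    exact hS.far z hzQ hzV s hs (near_mono hz2 (by omega) subset_rfl))
  exact near_mono h1 le_rfl Set.inter_subset_right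

/-- `anchor_aux` with `n = sdist ... x ≤ C1` (`SOut.reach`; the first alternative is excluded by `hfar`); `short`: `near_V0` gives
`sdist ≤ r`. -/
theorem exists_anchor (hM : M.IsSphere) (hk : Kids M Q V0 r Λ) (hS : SOut M Q V0 S r rf C1 C2)
    (hne : ∃ x y : M.V, x ≠ y) {x : M.V} (hx : x ∈ V0) (hfar : ¬ NearO M Q (r + rf) x) :
    ∃ t c, Anchor M V0 S r C1 x t c := by
  rcases hS.reach x hx with h | ⟨s, hsV, hsS, hns⟩
  · exact absurd (nearO_mono (Nat.le_add_left rf r) h) hfar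
  · have hreach : ∃ s ∈ {s | M.cv s ∈ S}, ∃ k, Near M.graph V0 k x s := ⟨s, hsS, C1, hns⟩
    have hle : sdist M.graph V0 {s | M.cv s ∈ S} x ≤ C1 := sdist_le _ hsS hns
    obtain ⟨t, htV, htS, c, hcS, hbel, hnear, hlink⟩ :=
      anchor_aux hM hk hS hne _ x hx hreach rfl
    refine ⟨t, c, htV, htS, hcS, hbel, near_mono hnear hle subset_rfl, ?_, ?_⟩
    · intro s' hs' hns'
      have h1 := near_V0 hS (fun h => hfar (nearO_mono (Nat.le_add_right r rf) h)) hs' hns'
      have h2 : sdist M.graph V0 {s | M.cv s ∈ S} x ≤ r := sdist_le _ hs' h1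
      exact near_mono hnear h2 subset_rfl
    · intro hxS
      obtain ⟨K, hK1, hK2, hK3, hK4, hK5⟩ := hlink hxS
      exact ⟨K, hK1, hK2, hK3, hK4, fun d hd z hz => near_mono (hK5 d hd z hz) hle subset_rfl⟩

/-- For a far `x ∈ V0` with anchor `t`, `c` the pair `(cv t, c)` is an edge of `M.sdPC` in `cut S`, so it is `g t0` for some `t0`,
and `g (t0 % m) = g t0` (`per_mod` in F/Enum or a short induction); `idx x = t0 % m`; `idx x = 0` for the other `x`. -/
theorem exists_idx (hM : M.IsSphere) (hk : Kids M Q V0 r Λ) (hS : SOut M Q V0 S r rf C1 C2)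
    (hne : ∃ x y : M.V, x ≠ y) {m : ℕ} {g : ℕ → M.sdPC.E} (hm : 3 ≤ m)
    (hper : ∀ t, g (t + m) = g t) (hcut : ∀ e, e ∈ M.sdPC.cut S ↔ ∃ t, g t = e) :
    ∃ idx : M.V → ℕ, (∀ x, idx x < m) ∧ IdxOK M Q V0 S r rf C1 g idx := by
  have key : ∀ x : M.V, ∃ i, i < m ∧ (x ∈ V0 → ¬ NearO M Q (r + rf) x →
      ∃ t, (g i).1.1 = M.cv t ∧ Anchor M V0 S r C1 x t (g i).1.2) := by
    intro x
    by_cases h : x ∈ V0 ∧ ¬ NearO M Q (r + rf) x
    · obtain ⟨t, c, hA⟩ := exists_anchor hM hk hS hne h.1 h.2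
      have hmem : (⟨(M.cv t, c), hA.bel⟩ : M.sdPC.E) ∈ M.sdPC.cut S := by
        refine Finset.mem_filter.2 ⟨Finset.mem_univ _, ⟨M.cv t, Or.inl rfl, hA.tS⟩,
          c, Or.inr rfl, hA.cS⟩
      obtain ⟨t0, ht0⟩ := (hcut _).1 hmem
      refine ⟨t0 % m, Nat.mod_lt _ (by omega), fun _ _ => ⟨t, ?_⟩⟩
      rw [← per_mod hper t0, ht0]
      exact ⟨rfl, hA⟩
    · exact ⟨0, by omega, fun h1 h2 => absurd ⟨h1, h2⟩ h⟩
  choose idx h1 h2 using key
  exact ⟨idx, h1, fun x hx hf => h2 x hx hf⟩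

end Pool.Agent.H.MP_c8cc4c_co.Pg
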