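import Mathlib
import Pool.Agent.H.MP_c8cc4c_co.P.Geo

/-! # MP_c8cc4c_co, part P (pages), file Child: the frontier of a child (helper35) -/

open scoped Classical
open Finset

noncomputable section

namespace Pool.Agent.H.MP_c8cc4c_co.Pg

variable {M : PC}

/-- a cell is the cell of each of its vertices or adjacent to it -/
theorem child_adj {c : M.Cell} {z : M.V} (h : z ∈ cvs M c) : c = M.cv z ∨ M.sd.Adj (M.cv z) c := by
  rcases c with x | e | f
  · have h1 : z = x := h
    subst h1
    exact Or.inl rfl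
  · exact Or.inr (sd_adj_ve.2 h)
  · exact Or.inr (sd_adj_vf.2 h)

/-- connected sets of cells from connected sets of vertices -/
theorem child_conn (hM : M.IsSphere) {B : Set M.V} {A : Set M.Cell} (hB : ConnOn M.graph B)
    (hv : ∀ x ∈ B, M.cv x ∈ A)
    (he : ∀ e x y, x ≠ y → M.inc e x → M.inc e y → x ∈ B → y ∈ B → M.ce e ∈ A)
    (hc : ∀ c ∈ A, ∃ z ∈ cvs M c, z ∈ B) : ConnOn M.sd A := by
  obtain ⟨x0, hx0⟩ := hB.1
  have h1 : ∀ x ∈ B, ∃ n, Near M.sd A n (M.cv x0) (M.cv x) := by
    intro x hx
    obtain ⟨n, hn⟩ := hB.2 x0 hx0 x hx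
    refine near_induct (P := fun v => ∃ n, Near M.sd A n (M.cv x0) (M.cv v)) ?_ hn
      ⟨0, near_refl (hv x0 hx0)⟩
    rintro u v hu hv' ⟨hne, e, heu, hev⟩ ⟨m, hm⟩
    have heA : M.ce e ∈ A := he e u v hne heu hev hu hv'
    exact ⟨m + 1 + 1, near_trans (near_trans hm (near_adj (hv u hu) heA (sd_adj_ve.2 heu)))
      (near_symm (near_adj (hv v hv') heA (sd_adj_ve.2 hev)))⟩
  refine connOn_of_center (hv x0 hx0) ?_
  intro c hcA
  obtain ⟨z, hzc, hzB⟩ := hc c hcA
  obtain ⟨n, hn⟩ := h1 z hzB
  rcases child_adj hzc with h2 | h2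
  · rw [h2]
    exact ⟨n, hn⟩
  · exact ⟨n + 1, near_trans hn (near_adj (hv z hzB) hcA h2)⟩

/-- `full M C` is connected if `C` is: every cell in `full M C` is a vertex cell `cv x`, `x ∈ C`, or adjacent (in `sd`, inside
`full M C`) to one (`cvs_nonempty`, `sd_adj_ve`, `sd_adj_vf`); vertex cells are joined by `near_cells` for walks in `C`: but
`near_cells` only says that every cell has a vertex in `A`; so do the induction on the walk directly: `cv x ~ ce e ~ cv x'` with
both ends of `e` in `C`. (`near_induct` or `connOn_of_center`.) -/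
theorem full_conn (hM : M.IsSphere) {C : Set M.V} (hC : ConnOn M.graph C) :
    ConnOn M.sd (full M C) := by
  refine child_conn hM hC ?_ ?_ ?_
  · rintro x hx z hz
    have h1 : z = x := hz
    rw [h1]
    exact hx
  · intro e x y hxy hx hy hxC hyC z hz
    have hz' : M.inc e z := hz
    obtain ⟨a, b, -, hab⟩ := hM.inc_two e
    rcases (hab x).1 hx with rfl | rfl <;> rcases (hab y).1 hy with rfl | rfl <;>
      rcases (hab z).1 hz' with rfl | rfl <;> first | exact hxC | exact hyC | exact absurd rfl hxy
  · intro c hc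
    obtain ⟨z, hz⟩ := cvs_nonempty hM c
    exact ⟨z, hz, hc hz⟩

/-- The complement of `full M C` = cells with a vertex outside `C`; every such cell is `cv y`, `y ∉ C`, or adjacent to such a
cell; the vertex cells are joined by walks outside `C` (`near_cells` with `A = Cᶜ`: all cells of `K` have a vertex outside
`C`). -/
theorem full_compl_conn (hM : M.IsSphere) {C : Set M.V} (hC : ConnOn M.graph Cᶜ) :
    ConnOn M.sd (full M C)ᶜ := by
  refine child_conn hM hC ?_ ?_ ?_
  · intro x hx h
    exact hx (h (mem_cvs_cv.2 rfl))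
  · intro e x y _ hx _ hxC _ h
    exact hxC (h hx)
  · intro c hc
    have hc' : ¬ (cvs M c ⊆ C) := hc
    rw [Set.not_subset] at hc'
    exact hc'

/-- The frontier of `full M C` is `front M C`. If `c ∉ full`, `d ∈ full` are adjacent then `d` is below `c` (`cvs_below`), so `c` has
a vertex in `C` (`cvs_nonempty`) and one outside. Conversely `c ∈ front` has a vertex `x ∈ C` and a vertex `y ∉ C`, `x ≠ y`,
so `c` is not a vertex cell, `cv x` is in `full M C` and adjacent to `c`. -/
theorem front_eq (hM : M.IsSphere) (C : Set M.V) :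
    {c | c ∉ full M C ∧ ∃ d ∈ full M C, M.sd.Adj c d} = front M C := by
  ext c
  constructor
  · rintro ⟨hc, d, hd, hadj⟩
    have hc' : ¬ (cvs M c ⊆ C) := hc
    have hd' : cvs M d ⊆ C := hd
    rcases (sd_adj c d).1 hadj with h | h
    · exact absurd ((cvs_below h).trans hd') hc'
    · obtain ⟨z, hz⟩ := cvs_nonempty hM d
      rw [Set.not_subset] at hc'
      exact ⟨⟨z, cvs_below h hz, hd' hz⟩, hc'⟩
  · rintro ⟨⟨x, hx, hxC⟩, y, hy, hyC⟩
    refine ⟨fun h => hyC (h hy), M.cv x, ?_, ?_⟩
    · intro z hz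
      have h1 : z = x := hz
      rw [h1]
      exact hxC
    · rcases child_adj hx with h | h
      · rw [h] at hy
        have h1 : y = x := hy
        rw [h1] at hyC
        exact absurd hxC hyC
      · exact h.symm

/-- `FrontierStmt` for `T = M.sdPC` (a sphere, simple, `Tri` by `SdStmt`; `M.F` is nonempty by `exists_at` since `C` and its
complement are nonempty) and `full M C`. -/
theorem front_conn (hM : M.IsSphere) (hSd : SdStmt) (hFr : FrontierStmt) {C : Set M.V}
    (hC : ConnOn M.graph C) (hC' : ConnOn M.graph Cᶜ) : ConnOn M.sd (front M C) := by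
  obtain ⟨x, hx⟩ := hC.1
  obtain ⟨y, hy⟩ := hC'.1
  have hxy : x ≠ y := by
    rintro rfl
    exact hy hx
  obtain ⟨f, -⟩ := exists_at hM hxy
  obtain ⟨h1, h2, h3⟩ := hSd M hM ⟨f⟩
  have h4 := hFr M.sdPC h1 h2 h3 (full M C) (full_conn hM hC) (full_compl_conn hM hC')
  rw [← front_eq hM C]
  exact h4

/-- At most `3 |cut C|` cells: the edge cells in `front M C` are the `ce e`, `e ∈ cut C`; a face cell in `front M C` has an edge in
`cut C` (`face_cut`, B/Tau), and every edge is in two faces (`bd_two`); vertex cells are not in `front M C`. -/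
theorem front_card (hM : M.IsSphere) (C : Set M.V) :
    (front M C).ncard ≤ 3 * (M.cut C).card := by
  have h1 : front M C ⊆ (((M.cut C).image fun e => M.ce e) ∪
      (M.cut C).biUnion (fun e => (univ.filter fun f => M.bd f e).image fun f => M.cf f) :
        Finset M.Cell) := by
    rintro c ⟨⟨x, hx, hxC⟩, y, hy, hyC⟩
    rw [Finset.mem_coe, Finset.mem_union]
    rcases c with z | e | f
    · have e1 : x = z := hx
      have e2 : y = z := hy
      rw [e1] at hxC
      rw [e2] at hyC
      exact absurd hxC hyC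
    · left
      refine Finset.mem_image.2 ⟨e, Finset.mem_filter.2 ⟨Finset.mem_univ _, ⟨x, hx, hxC⟩, y, hy,
        hyC⟩, rfl⟩
    · right
      obtain ⟨e, hfe, hcut⟩ := face_cut hM hxC hyC hx hy
      exact Finset.mem_biUnion.2 ⟨e, hcut, Finset.mem_image.2
        ⟨f, Finset.mem_filter.2 ⟨Finset.mem_univ _, hfe⟩, rfl⟩⟩
  have h2 := Set.ncard_le_ncard h1 (Finset.finite_toSet _)
  rw [Set.ncard_coe_finset] at h2
  refine h2.trans ((Finset.card_union_le _ _).trans ?_)
  have h3 : ((M.cut C).image fun e => M.ce e).card ≤ (M.cut C).card := Finset.card_image_le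
  have h4 : ((M.cut C).biUnion fun e => (univ.filter fun f => M.bd f e).image fun f => M.cf f).card
      ≤ (M.cut C).card * 2 := by
    apply Finset.card_biUnion_le_card_mul
    intro e _
    refine Finset.card_image_le.trans ?_
    obtain ⟨f, g, hfg, hfe⟩ := hM.bd_two e
    have h5 : (univ.filter fun f => M.bd f e) = {f, g} := by
      ext h
      rw [Finset.mem_filter, Finset.mem_insert, Finset.mem_singleton, hfe]
      simp
    rw [h5, Finset.card_pair hfg]
  omega

end Pool.Agent.H.MP_c8cc4c_co.Pg
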