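import Mathlib
import Pool.Agent.H.MP_c8cc4c_co.P.Child

/-! # MP_c8cc4c_co, part P (pages), file Items: items and representatives (helper35) -/

open scoped Classical
open Finset

noncomputable section

namespace Pool.Agent.H.MP_c8cc4c_co.Pg

variable {M : PC} {Q V0 : Set M.V} {r Λ : ℕ}

theorem mem_itm {u : M.V} (hu : u ∈ Q) : u ∈ itm M Q V0 u := by
  unfold itm
  split_ifs with h
  · rfl
  · exact mem_comp_self ⟨hu, h⟩

/-- Items are disjoint or equal (`isComp_unique`, `comp_isComp`; note that a component of `Q \ V0` does not meet `V0`). -/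
theorem itm_eq (hV0 : V0 ⊆ Q) {u w : M.V} (hu : u ∈ Q) (hw : w ∈ Q) (h : w ∈ itm M Q V0 u) :
    itm M Q V0 w = itm M Q V0 u := by
  have _ := hV0
  have _ := hw
  by_cases h0 : u ∈ V0
  · have h1 : w = u := by
      unfold itm at h
      rw [if_pos h0] at h
      exact h
    rw [h1]
  · unfold itm at h
    rw [if_neg h0] at h
    obtain ⟨n, hn⟩ := h
    have hw' := near_right hn
    unfold itm
    rw [if_neg hw'.2, if_neg h0]
    have e1 : IsComp M.graph (Q \ V0) (comp M.graph (Q \ V0) u) := comp_isComp ⟨hu, h0⟩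
    have e2 : w ∈ comp M.graph (Q \ V0) u := ⟨n, hn⟩
    exact (isComp_eq e1 e2).symm

theorem itm_comp {u : M.V} (hu : u ∈ Q) (hu0 : u ∉ V0) :
    IsComp M.graph (Q \ V0) (itm M Q V0 u) := by
  unfold itm
  rw [if_neg hu0]
  exact comp_isComp ⟨hu, hu0⟩

/-- Children are different from `Q`: `Q` and its complement are nonempty, so (`hM.conn`, `near_exit`) there is `x ∈ Q` adjacent to
`y ∉ Q`, and `NearO M Q r x`, so `x` is not in a child. -/
theorem kids_ne (hM : M.IsSphere) (hk : Kids M Q V0 r Λ) (hr : 1 ≤ r) (hQ : Q.Nonempty)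
    (hQ' : Qᶜ.Nonempty) {C : Set M.V} (hC : IsComp M.graph (Q \ V0) C) : C ≠ Q := by
  rintro rfl
  obtain ⟨x, hx⟩ := hQ
  obtain ⟨y, hy⟩ := hQ'
  obtain ⟨n, hn⟩ := hM.conn x y
  obtain ⟨u, v, k, l, -, h1, h2, h3, -⟩ := near_exit hn hx hy
  exact hk.far C hC u (near_right h1).2
    ⟨v, h3, near_mono (near_adj (Set.mem_univ _) (Set.mem_univ _) h2) hr subset_rfl⟩

/-- Representatives. For a component `C` of `Q \ V0`, `C ≠ Q` (`kids_ne`), and `Q` is connected, so (`connOn_cross`) there are adjacent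
`z ∈ C`, `v ∈ Q \ C`; `v ∈ V0` because `C` is a component. Choose such a `v` for every set `C` (a function of the set), and put
`rp u = u` for `u ∈ V0`, otherwise the `v` chosen for `itm u`. (`const`: if `itm u = itm w` then either both are in `V0` and `u = w`,
or none is.) -/
theorem exists_rep (hM : M.IsSphere) (hk : Kids M Q V0 r Λ) (hr : 1 ≤ r) (hQ : ConnOn M.graph Q)
    (hQ' : Qᶜ.Nonempty) : ∃ rp : M.V → M.V, Rep M Q V0 rp := by
  obtain ⟨x₀⟩ := hM.nonempty
  have hf : ∀ C : Set M.V, ∃ v, (∃ v' ∈ V0, ∃ z ∈ C, M.graph.Adj z v') →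
      (v ∈ V0 ∧ ∃ z ∈ C, M.graph.Adj z v) := by
    intro C
    by_cases h : ∃ v' ∈ V0, ∃ z ∈ C, M.graph.Adj z v'
    · obtain ⟨v, hv, hz⟩ := h
      exact ⟨v, fun _ => ⟨hv, hz⟩⟩
    · exact ⟨x₀, fun h' => absurd h' h⟩
  choose f hf using hf
  have key : ∀ u ∈ Q, u ∉ V0 →
      f (itm M Q V0 u) ∈ V0 ∧ ∃ z ∈ itm M Q V0 u, M.graph.Adj z (f (itm M Q V0 u)) := by
    intro u hu hu0
    apply hf
    have hC := itm_comp (M := M) hu hu0
    have hne := kids_ne hM hk hr hQ.1 hQ' hC
    have h1 : ∃ y ∈ Q, y ∉ itm M Q V0 u := by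
      by_contra hcon
      push Not at hcon
      exact hne (Set.Subset.antisymm (fun z hz => (hC.2.1 hz).1) hcon)
    obtain ⟨y, hy, hyC⟩ := h1
    obtain ⟨a, ha, b, hb, haC, hbC, hab⟩ := connOn_cross hQ hu (mem_itm hu) hy hyC
    refine ⟨b, ?_, a, haC, hab⟩
    by_contra hb0
    exact hbC (hC.2.2 a haC b ⟨hb, hb0⟩ hab)
  refine ⟨fun u => if u ∈ V0 then u else f (itm M Q V0 u), ⟨?_, ?_, ?_, ?_⟩⟩
  · intro u hu
    exact if_pos hu
  · intro u hu
    by_cases h0 : u ∈ V0
    · simp only [h0, if_true]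
    · simp only [h0, if_false]
      exact (key u hu h0).1
  · intro u hu h0
    simp only [h0, if_false]
    exact (key u hu h0).2
  · intro u hu w hw he
    by_cases h0 : u ∈ V0
    · by_cases h1 : w ∈ V0
      · have e1 : u ∈ itm M Q V0 w := he ▸ mem_itm hu
        unfold itm at e1
        rw [if_pos h1] at e1
        have e2 : u = w := e1
        rw [e2]
      · exfalso
        have e1 : u ∈ itm M Q V0 w := he ▸ mem_itm hu
        exact ((itm_comp (M := M) hw h1).2.1 e1).2 h0
    · by_cases h1 : w ∈ V0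
      · exfalso
        have e1 : w ∈ itm M Q V0 u := he ▸ mem_itm hw
        exact ((itm_comp (M := M) hu h0).2.1 e1).2 h1
      · simp only [h0, h1, if_false, he]

/-- Two cells of the frontier of a child are near each other: `front_conn`, `front_card`, `connOn_near`, `sd_near_cvs`:
`2 (3 Λ - 1) + 2 ≤ 6 Λ`; (if `Λ = 0` the front would be empty, but it contains `d`). -/
theorem front_near (hM : M.IsSphere) (hQd : M.Quad) (hSd : SdStmt) (hFr : FrontierStmt)
    (hk : Kids M Q V0 r Λ) {C : Set M.V} (hC : IsComp M.graph (Q \ V0) C) {c d : M.Cell}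
    (hc : c ∈ front M C) (hd : d ∈ front M C) {x y : M.V} (hx : x ∈ cvs M c)
    (hy : y ∈ cvs M d) : Near M.graph Set.univ (6 * Λ) x y := by
  have h1 := front_conn hM hSd hFr hC.1 (hk.compl C hC)
  have h2 := connOn_near h1 hc hd
  have h3 := sd_near_cvs hM hQd h2 hx hy
  have h4 := front_card hM C
  have h5 := hk.cut C hC
  have h6 : 0 < (front M C).ncard := (Set.ncard_pos (Set.toFinite _)).2 ⟨c, hc⟩
  exact near_mono h3 (by omega) subset_rfl

/-- A vertex at distance at most `r` from another item is near its representative. `u ∈ V0`: `rp u = u`. Otherwise `C = itm u`;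
`near_exit` (with `B = C`) gives adjacent `a ∈ C`, `b ∉ C` with `Near r u a`; the edge cell of `ab` and the edge cell of the edge from
`z ∈ C` to `rp u` (`rp u ∉ C` since it is in `V0`) are in `front M C`; `front_near` gives `Near (6Λ) a (rp u)`. -/
theorem rp_near (hM : M.IsSphere) (hQd : M.Quad) (hSd : SdStmt) (hFr : FrontierStmt)
    (hk : Kids M Q V0 r Λ) {rp : M.V → M.V} (hrp : Rep M Q V0 rp) {u w : M.V} (hu : u ∈ Q)
    (hw : w ∉ itm M Q V0 u) (hn : Near M.graph Set.univ r u w) :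
    Near M.graph Set.univ (Rrep r Λ) u (rp u) := by
  by_cases h0 : u ∈ V0
  · rw [hrp.id u h0]
    exact near_mono (near_refl (Set.mem_univ _)) (Nat.zero_le _) subset_rfl
  · have hC := itm_comp (M := M) hu h0
    obtain ⟨a, b, k, l, hkl, h1, hab, hb, -⟩ := near_exit hn (mem_itm hu) hw
    obtain ⟨z, hz, hadj⟩ := hrp.adj u hu h0
    have hrpC : rp u ∉ itm M Q V0 u := fun h => (hC.2.1 h).2 (hrp.mem u hu)
    obtain ⟨-, e, hea, heb⟩ := hab
    obtain ⟨-, e', hez, her⟩ := hadj
    have ha : a ∈ itm M Q V0 u := (near_right h1).2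
    have f1 : M.ce e ∈ front M (itm M Q V0 u) := ⟨⟨a, hea, ha⟩, b, heb, hb⟩
    have f2 : M.ce e' ∈ front M (itm M Q V0 u) := ⟨⟨z, hez, hz⟩, rp u, her, hrpC⟩
    have h2 := front_near hM hQd hSd hFr hk hC f1 f2 (x := a) (y := rp u) hea her
    have h3 : Near M.graph Set.univ k u a := near_mono h1 le_rfl (Set.subset_univ _)
    unfold Rrep
    exact near_mono (near_trans h3 h2) (by omega) subset_rfl

end Pool.Agent.H.MP_c8cc4c_co.Pg
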