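import Mathlib
import Pool.Agent.H.MP_c8cc4c_co.P.Items
import Pool.Agent.H.MP_c8cc4c_co.P.Anch

/-! # MP_c8cc4c_co, part P (pages), file Link: links (helper35) -/

open scoped Classical
open Finset

noncomputable section

namespace Pool.Agent.H.MP_c8cc4c_co.Pg

variable {M : PC} {Q V0 : Set M.V} {S : Set M.Cell} {r rf Λ C1 C2 : ℕ}

theorem lnk_mono {A : Set M.Cell} {R R' : ℕ} (h : R ≤ R') {e e' : M.sdPC.E} {u : M.V}
    (hl : Lnk M A R e e' u) : Lnk M A R' e e' u := by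
  obtain ⟨P, h1, h2, h3, h4, h5⟩ := hl
  exact ⟨P, h1, h2, h3, h4, fun d hd z hz => near_mono (h5 d hd z hz) h (subset_refl _)⟩

theorem link_down (hS : SOut M Q V0 S r rf C1 C2) {d : M.Cell} {x : M.V} (hd : d ∈ S)
    (hx : x ∈ cvs M d) : M.cv x ∈ S := by
  rcases d with y | e | f
  · have h1 : x = y := hx
    rw [h1]
    exact hd
  · exact hS.down (M.cv x) _ (show M.below (M.cv x) (M.ce e) from hx) hd
  · exact hS.down (M.cv x) _ (show M.below (M.cv x) (M.cf f) from hx) hd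

/-- The link from a set `K0` of cells (the cells of a walk from `u` to `w`, both outside `S`) to the contour edge of `rp u`.
`u ∈ V0`: `rp u = u`, `cv u ∈ K0` is not in `S`; take the `K` of `Anchor.link` (`c = (g (idx u)).1.2` is an end of the edge).
`u ∉ V0`: `C = itm u`. `cv u ∈ full M C`, `cv w ∉ full M C`, so (`connOn_cross`, `front_eq`) `K0` meets `front M C` in a cell `d0`, whose
vertices are within `n` of `u`. There is `z ∈ C` adjacent to `v = rp u`, `v ∉ C`; the edge cell `ce e` of `zv` is in `front M C`, adjacent to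
`cv v`. `cv v ∉ S`: otherwise `z ∈ Q \ V0` is within 1 of `v` (`SOut.far`). Cells of `front M C` are not in `S` (they have a vertex `z' ∈ C`; by
`down` `cv z' ∈ S`, but `z'` is within 0 of itself, `SOut.far`). `K1 = front M C ∪ {cv v} ∪ K` with the `K` of `Anchor.link` for `v`
(`rp v = v`, `v ∈ V0`): `connOn_union_adj`, `connOn_union`. Distances: `front_near` (`6 Λ`), `Anchor.link` (`C1`). -/
theorem side_link (hM : M.IsSphere) (hQd : M.Quad) (hSd : SdStmt) (hFr : FrontierStmt)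
    (hk : Kids M Q V0 r Λ) (hS : SOut M Q V0 S r rf C1 C2) {rp : M.V → M.V}
    (hrp : Rep M Q V0 rp) {g : ℕ → M.sdPC.E} {idx : M.V → ℕ}
    (hidx : IdxOK M Q V0 S r rf C1 g idx) {u w : M.V} (hu : u ∈ Q) (hw : w ∉ itm M Q V0 u)
    (hfar : ¬ NearO M Q (r + rf) (rp u)) {K0 : Set M.Cell} {n : ℕ} (hK0 : ConnOn M.sd K0)
    (hK0S : K0 ⊆ Sᶜ) (h1 : M.cv u ∈ K0) (h2 : M.cv w ∈ K0)
    (h3 : ∀ d ∈ K0, ∀ z ∈ cvs M d, Near M.graph Set.univ n u z) :
    ∃ K1 : Set M.Cell, ConnOn M.sd K1 ∧ K1 ⊆ Sᶜ ∧ (∃ c ∈ K1, c ∈ K0) ∧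
      (∃ c ∈ K1, M.sdPC.inc (g (idx (rp u))) c) ∧
      ∀ d ∈ K1, ∀ z ∈ cvs M d, Near M.graph Set.univ (n + 6 * Λ + C1) u z := by
  by_cases hu0 : u ∈ V0
  · have hru : rp u = u := hrp.id u hu0
    rw [hru] at hfar ⊢
    obtain ⟨t, ht, hA⟩ := hidx u hu0 hfar
    obtain ⟨K, hK1, hK2, hK3, hK4, hK5⟩ := hA.link (hK0S h1)
    exact ⟨K, hK1, hK2, ⟨M.cv u, hK3, h1⟩, ⟨_, hK4, Or.inr rfl⟩,
      fun d hd z hz => near_mono (hK5 d hd z hz) (by omega) (subset_refl _)⟩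
  · have hC : IsComp M.graph (Q \ V0) (itm M Q V0 u) := itm_comp hu hu0
    have huC : u ∈ itm M Q V0 u := mem_itm hu
    have hv0 : rp u ∈ V0 := hrp.mem u hu
    obtain ⟨z, hzC, hzv⟩ := hrp.adj u hu hu0
    generalize itm M Q V0 u = C at hw hC huC hzC
    generalize rp u = v at hfar hv0 hzv ⊢
    have hvC : v ∉ C := fun h => (hC.2.1 h).2 hv0
    obtain ⟨hne, e, hez, hev⟩ := hzv
    have hef : M.ce e ∈ front M C := ⟨⟨z, hez, hzC⟩, v, hev, hvC⟩
    have hfc : ConnOn M.sd (front M C) := front_conn hM hSd hFr hC.1 (hk.compl C hC)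
    have hcu : M.cv u ∈ full M C := by
      intro y hy
      rw [mem_cvs_cv] at hy
      rw [hy]
      exact huC
    have hcw : M.cv w ∉ full M C := fun h => hw (h (mem_cvs_cv.2 rfl))
    obtain ⟨a, haK, d0, hdK, ha, hd, had⟩ := connOn_cross hK0 h1 hcu h2 hcw
    have hd0 : d0 ∈ front M C := by
      rw [← front_eq hM C]
      exact ⟨hd, a, ha, had.symm⟩
    obtain ⟨y0, hy0, -⟩ := hd0.1
    have hfn : ∀ d ∈ front M C, ∀ y ∈ cvs M d, Near M.graph Set.univ (n + 6 * Λ) u y :=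
      fun d hd y hy => near_trans (h3 d0 hdK y0 hy0)
        (front_near hM hQd hSd hFr hk hC hd0 hd hy0 hy)
    have hfS : ∀ d ∈ front M C, d ∉ S := by
      rintro d ⟨⟨x, hx, hxC⟩, -⟩ hdS
      exact hS.far x (hC.2.1 hxC).1 (hC.2.1 hxC).2 x (link_down hS hdS hx)
        (near_mono (near_refl (Set.mem_univ _)) (by omega) (subset_refl _))
    have hvS : M.cv v ∉ S := fun h => hS.far z (hC.2.1 hzC).1 (hC.2.1 hzC).2 v h
      (near_mono (near_adj (Set.mem_univ _) (Set.mem_univ _) ⟨hne, e, hez, hev⟩) (by omega)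
        (subset_refl _))
    obtain ⟨t, ht, hA⟩ := hidx v hv0 hfar
    obtain ⟨K, hK1, hK2, hK3, hK4, hK5⟩ := hA.link hvS
    refine ⟨front M C ∪ K, connOn_union_adj hfc hK1 ⟨M.ce e, hef, M.cv v, hK3,
      (sd_adj_ve.2 hev).symm⟩, ?_, ⟨d0, Or.inl hd0, hdK⟩, ⟨_, Or.inr hK4, Or.inr rfl⟩, ?_⟩
    · rintro c (hc | hc)
      · exact hfS c hc
      · exact hK2 hc
    · rintro d (hd | hd) y hy
      · exact near_mono (hfn d hd y hy) (by omega) (subset_refl _)
      · exact near_trans (hfn _ hef v hev) (hK5 d hd y hy)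

/-- A walk from `u` to `w` outside `S`: `K0` from `near_cells` with `A = {z | cv z ∉ S}` (cells of `K0` are not in `S` by `down`),
`side_link` for `u` (with `n = r`) and for `w` (with `n = 2 r`, since the cells of `K0` are within `2 r` of `w`); the union of the three sets is
connected (`connOn_union`). -/
theorem link_out (hM : M.IsSphere) (hQd : M.Quad) (hSd : SdStmt) (hFr : FrontierStmt)
    (hk : Kids M Q V0 r Λ) (hS : SOut M Q V0 S r rf C1 C2) {rp : M.V → M.V}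
    (hrp : Rep M Q V0 rp) {g : ℕ → M.sdPC.E} {idx : M.V → ℕ}
    (hidx : IdxOK M Q V0 S r rf C1 g idx) {u w : M.V} (hu : u ∈ Q) (hw : w ∈ Q)
    (hit : itm M Q V0 u ≠ itm M Q V0 w) (hn : Near M.graph {z | M.cv z ∉ S} r u w)
    (hfu : ¬ NearO M Q (r + rf) (rp u)) (hfw : ¬ NearO M Q (r + rf) (rp w)) :
    Lnk M Sᶜ (3 * r + 6 * Λ + C1) (g (idx (rp u))) (g (idx (rp w))) u := by
  obtain ⟨K0, hK1, hK2, hK3, hK4⟩ := near_cells hM hn
  have hKS : K0 ⊆ Sᶜ := by
    intro c hc hcS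
    obtain ⟨⟨z, hz, hzA⟩, -⟩ := hK4 c hc
    exact hzA (link_down hS hcS hz)
  have hn' : Near M.graph Set.univ r u w := near_mono hn le_rfl (Set.subset_univ _)
  have hwu : w ∉ itm M Q V0 u := fun h => hit (itm_eq hk.sub hu hw h).symm
  have huw : u ∉ itm M Q V0 w := fun h => hit (itm_eq hk.sub hw hu h)
  obtain ⟨A, hA1, hA2, ⟨a, ha1, ha2⟩, ⟨a', ha3, ha4⟩, hA5⟩ := side_link hM hQd hSd hFr hk hS hrp
    hidx hu hwu hfu hK1 hKS hK2 hK3 (fun d hd z hz => (hK4 d hd).2 z hz)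
  obtain ⟨B, hB1, hB2, ⟨b, hb1, hb2⟩, ⟨b', hb3, hb4⟩, hB5⟩ := side_link hM hQd hSd hFr hk hS hrp
    hidx hw huw hfw hK1 hKS hK3 hK2 (n := r + r)
    (fun d hd z hz => near_trans (near_symm hn') ((hK4 d hd).2 z hz))
  refine ⟨(K0 ∪ A) ∪ B, connOn_union (connOn_union hK1 hA1 ⟨a, ha2, ha1⟩) hB1
    ⟨b, Or.inl hb2, hb1⟩, ?_, ⟨a', Or.inl (Or.inr ha3), ha4⟩, ⟨b', Or.inr hb3, hb4⟩, ?_⟩
  · rintro c ((hc | hc) | hc)
    · exact hKS hc
    · exact hA2 hc
    · exact hB2 hc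
  · rintro d ((hd | hd) | hd) z hz
    · exact near_mono ((hK4 d hd).2 z hz) (by omega) (subset_refl _)
    · exact near_mono (hA5 d hd z hz) (by omega) (subset_refl _)
    · exact near_mono (near_trans hn' (hB5 d hd z hz)) (by omega) (subset_refl _)

/-- A walk from `u` to `w` through a vertex `z` with `cv z ∈ S`. `SOut.far` gives `u, w ∈ V0`, so `rp u = u`, `rp w = w`. Let `t`, `t'` be the
anchors; `short` gives `Near r u t`, `Near r w t'`, so `Near (3 r) t t'`. `t`, `t'` are not within `rf` of the complement of `Q`. `SOut.qi`: a walk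
in `S` of length at most `C2` from `cv t` to `cv t'`; `P` = its support (`connOn_support`). Every cell of `P` is within `C2` (in `sd`) of
`cv t`; `sd_near_cvs`. -/
theorem link_in (hM : M.IsSphere) (hQd : M.Quad) (hk : Kids M Q V0 r Λ)
    (hS : SOut M Q V0 S r rf C1 C2) {rp : M.V → M.V} (hrp : Rep M Q V0 rp)
    {g : ℕ → M.sdPC.E} {idx : M.V → ℕ} (hidx : IdxOK M Q V0 S r rf C1 g idx) {u w z : M.V}
    (hu : u ∈ Q) (hw : w ∈ Q) (hn : Near M.graph Set.univ r u w) (hz : M.cv z ∈ S)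
    (hz1 : Near M.graph Set.univ r u z) (hz2 : Near M.graph Set.univ r z w)
    (hfu : ¬ NearO M Q (r + rf) (rp u)) (hfw : ¬ NearO M Q (r + rf) (rp w)) :
    Lnk M S (r + 2 * C2 + 2) (g (idx (rp u))) (g (idx (rp w))) u := by
  have hu0 : u ∈ V0 := by
    by_contra h
    exact hS.far u hu h z hz (near_mono hz1 (by omega) (subset_refl _))
  have hw0 : w ∈ V0 := by
    by_contra h
    exact hS.far w hw h z hz (near_mono (near_symm hz2) (by omega) (subset_refl _))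
  rw [hrp.id u hu0] at hfu ⊢
  rw [hrp.id w hw0] at hfw ⊢
  obtain ⟨t, ht, hA⟩ := hidx u hu0 hfu
  obtain ⟨t', ht', hA'⟩ := hidx w hw0 hfw
  have h1 : Near M.graph Set.univ r u t := hA.short z hz hz1
  have h2 : Near M.graph Set.univ r w t' := hA'.short z hz (near_symm hz2)
  have h3 : Near M.graph Set.univ (3 * r) t t' :=
    near_mono (near_trans (near_symm h1) (near_trans hn h2)) (by omega) (subset_refl _)
  have h4 : ¬ NearO M Q rf t := fun h => hfu (nearO_near h1 h)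
  have h5 : ¬ NearO M Q rf t' := fun h => hfw (nearO_near h2 h)
  obtain ⟨p, hp1, hp2⟩ := hS.qi t (hk.sub hA.mem) t' (hk.sub hA'.mem) hA.tS hA'.tS h4 h5 h3
  refine ⟨{c | c ∈ p.support}, connOn_support p, hp2,
    ⟨M.cv t, p.start_mem_support, Or.inl ht.symm⟩,
    ⟨M.cv t', p.end_mem_support, Or.inl ht'.symm⟩, ?_⟩
  intro d hd y hy
  have hd' : d ∈ p.support := hd
  have h6 : Near M.sd S C2 (M.cv t) d :=
    ⟨p.takeUntil d hd', (p.length_takeUntil_le hd').trans hp1,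
      fun v hv => hp2 v (p.support_takeUntil_subset hd' hv)⟩
  exact near_mono (near_trans h1 (sd_near_cvs hM hQd h6 (mem_cvs_cv.2 rfl) hy)) (by omega)
    (subset_refl _)

/-- Case distinction with `near_sub2` (`B = {z | cv z ∉ S}`), `link_out`, `link_in`, `lnk_mono`. -/
theorem link (hM : M.IsSphere) (hQd : M.Quad) (hSd : SdStmt) (hFr : FrontierStmt)
    (hk : Kids M Q V0 r Λ) (hS : SOut M Q V0 S r rf C1 C2) {rp : M.V → M.V}
    (hrp : Rep M Q V0 rp) {g : ℕ → M.sdPC.E} {idx : M.V → ℕ}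
    (hidx : IdxOK M Q V0 S r rf C1 g idx) {u w : M.V} (hu : u ∈ Q) (hw : w ∈ Q)
    (hit : itm M Q V0 u ≠ itm M Q V0 w) (hn : Near M.graph Set.univ r u w)
    (hfu : ¬ NearO M Q (r + rf) (rp u)) (hfw : ¬ NearO M Q (r + rf) (rp w)) :
    Lnk M Sᶜ (Rlk r Λ C1 C2) (g (idx (rp u))) (g (idx (rp w))) u ∨
      Lnk M S (Rlk r Λ C1 C2) (g (idx (rp u))) (g (idx (rp w))) u := by
  by_cases hz : ∃ z, M.cv z ∈ S ∧ Near M.graph Set.univ r u z ∧ Near M.graph Set.univ r z w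
  · obtain ⟨z, hz, hz1, hz2⟩ := hz
    exact Or.inr (lnk_mono (by unfold Rlk; omega)
      (link_in hM hQd hk hS hrp hidx hu hw hn hz hz1 hz2 hfu hfw))
  · push Not at hz
    have h1 := near_sub2 (B := {z | M.cv z ∉ S}) hn (fun z h1 h2 h3 => hz z h3 h1 h2)
    exact Or.inl (lnk_mono (by unfold Rlk; omega)
      (link_out hM hQd hSd hFr hk hS hrp hidx hu hw hit
        (near_mono h1 le_rfl Set.inter_subset_right) hfu hfw))

end Pool.Agent.H.MP_c8cc4c_co.Pg
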