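import Mathlib
import Pool.Agent.H.MP_c8cc4c_co.P.Link

/-! # MP_c8cc4c_co, part P (pages), file Cross: pairs of the same type do not cross (helper35) -/

open scoped Classical
open Finset

noncomputable section

namespace Pool.Agent.H.MP_c8cc4c_co.Pg

variable {M : PC} {Q V0 : Set M.V} {S : Set M.Cell} {r rf Λ C1 C2 : ℕ}

/-- Equal index: the anchors are equal (`SdA_cv_inj`), so the representatives are within `2 C1` of each other. -/
theorem idx_eq {g : ℕ → M.sdPC.E} {idx : M.V → ℕ} (hidx : IdxOK M Q V0 S r rf C1 g idx)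
    {x y : M.V} (hx : x ∈ V0) (hy : y ∈ V0) (hfx : ¬ NearO M Q (r + rf) x)
    (hfy : ¬ NearO M Q (r + rf) y) (h : idx x = idx y) :
    Near M.graph Set.univ (2 * C1) x y := by
  obtain ⟨t, ht, hta⟩ := hidx x hx hfx
  obtain ⟨t', ht', hta'⟩ := hidx y hy hfy
  rw [← h, ht] at ht'
  have htt : t = t' := Sum.inl.inj ht'
  subst htt
  exact near_mono (near_trans hta.near (near_symm hta'.near)) (by omega) (le_refl _)

/-- Two links on the same side of the contour for interleaved indices: `x, u` and `y, w` are near. If `idx (rp x) = idx (rp y)`: `idx_eq` and `rp_near`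
(for `x` with partner `u`, `u ∉ itm x` by `itm_eq`; for `y` with partner `w`). If `idx (rp y) = idx (rp u)`: `y`, `u` are near, and `x`, `u` are within
`r`. If `idx (rp u) = idx (rp w)`: `u`, `w` are near. Otherwise the four indices are strictly increasing and less than `m`, and `AltStmt` for
`T = M.sdPC`, `A` gives a common cell of the two sets; a vertex of it (`cvs_nonempty`) is within `Rlk` of `x` and of `y`. -/
theorem no_cross (hM : M.IsSphere) (hQd : M.Quad) (hSd : SdStmt) (hFr : FrontierStmt)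
    (hAlt : AltStmt) (hk : Kids M Q V0 r Λ) (hS : SOut M Q V0 S r rf C1 C2)
    (hne : ∃ x y : M.V, x ≠ y) {rp : M.V → M.V}
    (hrp : Rep M Q V0 rp) {m : ℕ} {g : ℕ → M.sdPC.E} (hm : 3 ≤ m)
    (hper : ∀ t, g (t + m) = g t)
    (hinj : ∀ s t, s < m → t < m → g s = g t → s = t)
    (hcut : ∀ e, e ∈ M.sdPC.cut S ↔ ∃ t, g t = e)
    (htri : ∀ t, ∃ f, M.sdPC.bd f (g t) ∧ M.sdPC.bd f (g (t + 1)))
    {idx : M.V → ℕ} (hlt : ∀ x, idx x < m) (hidx : IdxOK M Q V0 S r rf C1 g idx)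
    {x u y w : M.V} (hx : x ∈ Q) (hu : u ∈ Q) (hy : y ∈ Q) (hw : w ∈ Q)
    (hxu : Near M.graph Set.univ r x u) (hyw : Near M.graph Set.univ r y w)
    (hi : itm M Q V0 x ≠ itm M Q V0 u) (hi' : itm M Q V0 y ≠ itm M Q V0 w)
    (hfx : ¬ NearO M Q (r + rf) (rp x)) (hfu : ¬ NearO M Q (r + rf) (rp u))
    (hfy : ¬ NearO M Q (r + rf) (rp y)) (hfw : ¬ NearO M Q (r + rf) (rp w))
    (h1 : idx (rp x) ≤ idx (rp y)) (h2 : idx (rp y) ≤ idx (rp u))
    (h3 : idx (rp u) ≤ idx (rp w)) {A : Set M.Cell} (hA : A = S ∨ A = Sᶜ)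
    (hl : Lnk M A (Rlk r Λ C1 C2) (g (idx (rp x))) (g (idx (rp u))) x)
    (hl' : Lnk M A (Rlk r Λ C1 C2) (g (idx (rp y))) (g (idx (rp w))) y) :
    Near M.graph Set.univ (Rcol r Λ C1 C2) x y ∨
      Near M.graph Set.univ (Rcol r Λ C1 C2) u w := by
  have hV0 : V0 ⊆ Q := hk.sub
  have hux : u ∉ itm M Q V0 x := fun h => hi (itm_eq hV0 hx hu h).symm
  have hxu' : x ∉ itm M Q V0 u := fun h => hi (itm_eq hV0 hu hx h)
  have hwy : w ∉ itm M Q V0 y := fun h => hi' (itm_eq hV0 hy hw h).symm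
  have hyw' : y ∉ itm M Q V0 w := fun h => hi' (itm_eq hV0 hw hy h)
  have nx := rp_near hM hQd hSd hFr hk hrp hx hux hxu
  have nu := rp_near hM hQd hSd hFr hk hrp hu hxu' (near_symm hxu)
  have ny := rp_near hM hQd hSd hFr hk hrp hy hwy hyw
  have nw := rp_near hM hQd hSd hFr hk hrp hw hyw' (near_symm hyw)
  have mx := hrp.mem x hx
  have mu := hrp.mem u hu
  have my := hrp.mem y hy
  have mw := hrp.mem w hw
  have hR : Rcol r Λ C1 C2 = 2 * Rlk r Λ C1 C2 + 2 * Rrep r Λ + 2 * C1 + r := rfl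
  by_cases e1 : idx (rp x) = idx (rp y)
  · left
    have h := idx_eq hidx mx my hfx hfy e1
    exact near_mono (near_trans (near_trans nx h) (near_symm ny)) (by omega) (le_refl _)
  by_cases e2 : idx (rp y) = idx (rp u)
  · left
    have h := idx_eq hidx my mu hfy hfu e2
    have h4 := near_trans (near_trans ny h) (near_symm nu)
    exact near_mono (near_trans hxu (near_symm h4)) (by omega) (le_refl _)
  by_cases e3 : idx (rp u) = idx (rp w)
  · right
    have h := idx_eq hidx mu mw hfu hfw e3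
    exact near_mono (near_trans (near_trans nu h) (near_symm nw)) (by omega) (le_refl _)
  left
  have hneF : Nonempty M.F := by
    obtain ⟨a, b, hab⟩ := hne
    obtain ⟨f, -⟩ := exists_at hM hab
    exact ⟨f⟩
  obtain ⟨hT1, hT2, hT3⟩ := hSd M hM hneF
  obtain ⟨P, hPc, hPA, hP1, hP2, hPn⟩ := hl
  obtain ⟨P', hPc', hPA', hP1', hP2', hPn'⟩ := hl'
  obtain ⟨c, hcP, hcP'⟩ := hAlt M.sdPC hT1 hT2 hT3 S hS.conn hS.conn' m g hm hper hinj hcut htri
    (idx (rp x)) (idx (rp y)) (idx (rp u)) (idx (rp w)) (by omega) (by omega) (by omega)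
    (hlt _) A hA P P' hPA hPA' hPc hPc' hP1 hP2 hP1' hP2'
  obtain ⟨z, hz⟩ := cvs_nonempty hM c
  exact near_mono (near_trans (hPn c hcP z hz) (near_symm (hPn' c hcP' z hz))) (by omega)
    (le_refl _)

end Pool.Agent.H.MP_c8cc4c_co.Pg
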