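import Mathlib
import Pool.Agent.H.MP_c8cc4c_co.P.Defs

/-! # MP_c8cc4c_co, part P (pages), file Order: the order of a region (helper35) -/

open scoped Classical
open Finset

noncomputable section

namespace Pool.Agent.H.MP_c8cc4c_co.Pg

theorem order_le {a b L x y : ℕ} (hy : y < L) (h : a * L + x ≤ b * L + y) : a ≤ b := by
  by_contra hcon
  push Not at hcon
  have h1 : (b + 1) * L ≤ a * L := Nat.mul_le_mul_right _ hcon
  rw [Nat.succ_mul] at h1
  omega

/-- Number the sets (`Fintype.equivFin (Set V)`), `N` = number of sets, `L = 1 + max oc`;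
`ord u = (pos u * N + num (it u)) * L + oc u`. -/
theorem exists_ord {V : Type} [Fintype V] (pos : V → ℕ) (it : V → Set V) (oc : V → ℕ)
    (Q : Set V) (hpos : ∀ u ∈ Q, ∀ w ∈ Q, it u = it w → pos u = pos w) :
    ∃ ord : V → ℕ,
      (∀ u ∈ Q, ∀ w ∈ Q, ord u = ord w → it u = it w ∧ oc u = oc w) ∧
      (∀ u ∈ Q, ∀ w ∈ Q, it u = it w → (ord u < ord w ↔ oc u < oc w)) ∧
      (∀ u ∈ Q, ∀ w ∈ Q, ord u < ord w → pos u ≤ pos w) ∧
      (∀ u ∈ Q, ∀ w ∈ Q, ∀ x ∈ Q, it u = it w → ord u < ord x → ord x < ord w →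
        it x = it u) := by
  obtain ⟨N, hN⟩ : ∃ N, N = Fintype.card (Set V) := ⟨_, rfl⟩
  obtain ⟨num, hnum⟩ : ∃ num : Set V → ℕ, num = fun A => (Fintype.equivFin (Set V) A : ℕ) :=
    ⟨_, rfl⟩
  have hlt : ∀ A, num A < N := by
    intro A
    rw [hnum, hN]
    exact (Fintype.equivFin (Set V) A).2
  have hinj : ∀ A B, num A = num B → A = B := by
    intro A B h
    rw [hnum] at h
    exact (Fintype.equivFin (Set V)).injective (Fin.ext h)
  obtain ⟨L, hL⟩ : ∃ L, L = (univ.sup oc) + 1 := ⟨_, rfl⟩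
  have hoc : ∀ u, oc u < L := by
    intro u
    rw [hL]
    exact Nat.lt_succ_of_le (Finset.le_sup (f := oc) (mem_univ u))
  obtain ⟨a, ha⟩ : ∃ a : V → ℕ, a = fun u => pos u * N + num (it u) := ⟨_, rfl⟩
  have ha' : ∀ u, a u = pos u * N + num (it u) := fun u => by rw [ha]
  have hpa : ∀ u w, a u ≤ a w → pos u ≤ pos w := by
    intro u w h
    rw [ha', ha'] at h
    exact order_le (hlt _) h
  have hia : ∀ u w, a u = a w → it u = it w := by
    intro u w h
    have h1 := le_antisymm (hpa u w h.le) (hpa w u h.ge)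
    rw [ha', ha', h1] at h
    exact hinj _ _ (Nat.add_left_cancel h)
  have hai : ∀ u ∈ Q, ∀ w ∈ Q, it u = it w → a u = a w := by
    intro u hu w hw h
    rw [ha', ha', h, hpos u hu w hw h]
  refine ⟨fun u => a u * L + oc u, ?_, ?_, ?_, ?_⟩
  · intro u _ w _ h
    have h : a u * L + oc u = a w * L + oc w := h
    have h1 := le_antisymm (order_le (hoc w) h.le) (order_le (hoc u) h.ge)
    refine ⟨hia u w h1, ?_⟩
    rw [h1] at h
    exact Nat.add_left_cancel h
  · intro u hu w hw h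
    show a u * L + oc u < a w * L + oc w ↔ _
    rw [hai u hu w hw h]
    exact Nat.add_lt_add_iff_left
  · intro u _ w _ h
    exact hpa u w (order_le (hoc w) (le_of_lt h))
  · intro u hu w hw x _ h h1 h2
    have h3 : a u ≤ a x := order_le (hoc x) (le_of_lt h1)
    have h4 : a x ≤ a w := order_le (hoc w) (le_of_lt h2)
    rw [← hai u hu w hw h] at h4
    exact hia x u (le_antisymm h4 h3)

end Pool.Agent.H.MP_c8cc4c_co.Pg
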