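import Mathlib
import Pool.Agent.H.MP_c8cc4c_co.P.Items
import Pool.Agent.H.MP_c8cc4c_co.P.Order

/-! # MP_c8cc4c_co, part P (pages), file Step: assembly of one step (helper35) -/

open scoped Classical
open Finset

noncomputable section

namespace Pool.Agent.H.MP_c8cc4c_co.Pg

variable {M : PC}

theorem step_notmem {Q V0 : Set M.V} {u w : M.V} (hw : w ∈ Q)
    (h : itm M Q V0 u = itm M Q V0 w) (hne : u ≠ w) : u ∉ V0 := by
  intro hu0
  have h1 : itm M Q V0 u = {u} := by
    unfold itm
    rw [if_pos hu0]
  have h2 := mem_itm (V0 := V0) hw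
  rw [← h, h1] at h2
  exact hne h2.symm

/-- Assembly. For every child `C` choose `ordC`, `pgC` (`hC`; for sets which are not components anything). `oc u = ordC_{itm u} u` for `u ∉ V0`, `0` for
`u ∈ V0`. `ord` from `exists_ord` (`it = itm M Q V0`). `pg u w = (!(pgC u w).1, (pgC u w).2)` with `C = itm u` if `itm u = itm w`, otherwise
`(false, col u w)`.
`InjOn`: `ord u = ord w` gives `itm u = itm w`, `oc u = oc w`; if `u ∈ V0` then `w ∈ itm w = {u}`; otherwise `InjOn` of the child.
(P1) for `x < y < u < w`: (a) both pairs inside items, the items equal: the (P1) of the child (order = order of the child; both labels are flipped; not in `V0`,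
since `itm = {u}` is a singleton for `u ∈ V0`). (b) both inside items, different items: `itm y = itm x` because `x < y < u` and items are intervals: contradiction.
(c) `x, u` in one child `C`, `itm y ≠ itm w`: then `y ∈ C` (interval), so `w ∉ C`, `Near r y w`: `NearO M C r y`; equal labels: the label of `(y, w)` has first
coordinate `false`, so `(pgC x u).1 = true`: contradicts (P2) of the child for `y` between `x` and `u`. (d) `itm x ≠ itm u`, `y, w` in one child `C`:
`y < u < w`, so `u ∈ C`, `x ∉ C`, same argument with `u` between `y` and `w`. (e) both pairs between different items: `hcross`.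
(P2): the label `true` means that `u`, `w` are in one child `C` (first coordinate of `pgC` false); `x` between them is in `C` (interval), but the children are not
within `r` of the complement of `Q` (`Kids.far`). -/
theorem lay_step {β : Type} {Q V0 : Set M.V} {r Λ : ℕ} (hk : Kids M Q V0 r Λ) [Nonempty β]
    (hC : ∀ C, IsComp M.graph (Q \ V0) C → Lay M r β C) (pos : M.V → ℕ)
    (hpos : ∀ u ∈ Q, ∀ w ∈ Q, itm M Q V0 u = itm M Q V0 w → pos u = pos w)
    (col : M.V → M.V → β)
    (hcross : ∀ x ∈ Q, ∀ u ∈ Q, ∀ y ∈ Q, ∀ w ∈ Q, Near M.graph Set.univ r x u →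
      Near M.graph Set.univ r y w → itm M Q V0 x ≠ itm M Q V0 u →
      itm M Q V0 y ≠ itm M Q V0 w → x ≠ y → y ≠ u → u ≠ w → x ≠ w → pos x ≤ pos y →
      pos y ≤ pos u → pos u ≤ pos w → col x u ≠ col y w) : Lay M r β Q := by
  have hC' : ∀ C : Set M.V, ∃ (o : M.V → ℕ) (p : M.V → M.V → Bool × β),
      IsComp M.graph (Q \ V0) C → (Set.InjOn o C ∧
    (∀ x ∈ C, ∀ u ∈ C, ∀ y ∈ C, ∀ w ∈ C, Near M.graph Set.univ r x u →
      Near M.graph Set.univ r y w → o x < o y → o y < o u → o u < o w →
      p x u ≠ p y w) ∧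
    (∀ u ∈ C, ∀ w ∈ C, Near M.graph Set.univ r u w → (p u w).1 = true →
      ∀ x ∈ C, NearO M C r x → o u < o x → o x < o w → False)) := by
    intro C
    by_cases h : IsComp M.graph (Q \ V0) C
    · obtain ⟨o, p, h1⟩ := hC C h
      exact ⟨o, p, fun _ => h1⟩
    · exact ⟨fun _ => 0, fun _ _ => (false, Classical.arbitrary β), fun h' => absurd h' h⟩
  choose o p hop using hC'
  obtain ⟨ord, ho1, ho2, ho3, ho4⟩ := exists_ord pos (itm M Q V0)
    (fun u => if u ∈ V0 then 0 else o (itm M Q V0 u) u) Q hpos
  have hin : ∀ u ∈ Q, ∀ w ∈ Q, itm M Q V0 u = itm M Q V0 w → ord u < ord w →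
      o (itm M Q V0 u) u < o (itm M Q V0 u) w := by
    intro u hu w hw h hlt
    have hne : u ≠ w := fun hh => by rw [hh] at hlt; exact lt_irrefl _ hlt
    have hu0 : u ∉ V0 := step_notmem hw h hne
    have hw0 : w ∉ V0 := step_notmem hu h.symm hne.symm
    have h1 := (ho2 u hu w hw h).1 hlt
    simp only [if_neg hu0, if_neg hw0] at h1
    rwa [← h] at h1
  refine ⟨ord, fun u w => if itm M Q V0 u = itm M Q V0 w then
    (!(p (itm M Q V0 u) u w).1, (p (itm M Q V0 u) u w).2) else (false, col u w), ?_, ?_, ?_⟩
  · intro u hu w hw huw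
    by_contra hne
    obtain ⟨h1, h2⟩ := ho1 u hu w hw huw
    have hu0 : u ∉ V0 := step_notmem hw h1 hne
    have hw0 : w ∉ V0 := step_notmem hu h1.symm (Ne.symm hne)
    simp only [if_neg hu0, if_neg hw0] at h2
    rw [← h1] at h2
    refine hne ((hop _ (itm_comp hu hu0)).1 (mem_itm hu) ?_ h2)
    rw [h1]
    exact mem_itm hw
  · intro x hx u hu y hy w hw hxu hyw h1 h2 h3 hpg
    have hxy : x ≠ y := fun hh => by rw [hh] at h1; exact lt_irrefl _ h1
    have hyu : y ≠ u := fun hh => by rw [hh] at h2; exact lt_irrefl _ h2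
    have huw : u ≠ w := fun hh => by rw [hh] at h3; exact lt_irrefl _ h3
    have hxw : x ≠ w := fun hh => by
      rw [← hh] at h3
      exact lt_asymm (h1.trans h2) h3
    by_cases ha : itm M Q V0 x = itm M Q V0 u
    · have hyx : itm M Q V0 y = itm M Q V0 x := ho4 x hx u hu y hy ha h1 h2
      have hx0 : x ∉ V0 := step_notmem hy hyx.symm hxy
      obtain ⟨-, hP1, hP2⟩ := hop _ (itm_comp (Q := Q) hx hx0)
      have mx : x ∈ itm M Q V0 x := mem_itm hx
      have mu : u ∈ itm M Q V0 x := by rw [ha]; exact mem_itm hu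
      have my : y ∈ itm M Q V0 x := by rw [← hyx]; exact mem_itm hy
      have i1 : o (itm M Q V0 x) x < o (itm M Q V0 x) y := hin x hx y hy hyx.symm h1
      have i2 : o (itm M Q V0 x) y < o (itm M Q V0 x) u := by
        have := hin y hy u hu (hyx.trans ha) h2
        rwa [hyx] at this
      by_cases hb : itm M Q V0 y = itm M Q V0 w
      · have mw : w ∈ itm M Q V0 x := by rw [← hyx, hb]; exact mem_itm hw
        have i3 : o (itm M Q V0 x) u < o (itm M Q V0 x) w := by
          have := hin u hu w hw (ha.symm.trans (hyx.symm.trans hb)) h3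
          rwa [← ha] at this
        simp only [if_pos ha, if_pos hb] at hpg
        rw [hyx] at hpg
        rw [Prod.mk.injEq] at hpg
        refine hP1 x mx u mu y my w mw hxu hyw i1 i2 i3 (Prod.ext ?_ hpg.2)
        exact Bool.not_inj hpg.1
      · have hwC : w ∉ itm M Q V0 x := by
          intro hh
          rw [← hyx] at hh
          exact hb (itm_eq hk.sub hy hw hh).symm
        simp only [if_pos ha, if_neg hb] at hpg
        rw [Prod.mk.injEq] at hpg
        refine hP2 x mx u mu hxu ?_ y my ⟨w, hwC, hyw⟩ i1 i2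
        have := hpg.1
        simpa using this
    · by_cases hb : itm M Q V0 y = itm M Q V0 w
      · have huy : itm M Q V0 u = itm M Q V0 y := ho4 y hy w hw u hu hb h2 h3
        have hy0 : y ∉ V0 := step_notmem hu huy.symm hyu
        obtain ⟨-, hP1, hP2⟩ := hop _ (itm_comp (Q := Q) hy hy0)
        have my : y ∈ itm M Q V0 y := mem_itm hy
        have mu : u ∈ itm M Q V0 y := by rw [← huy]; exact mem_itm hu
        have mw : w ∈ itm M Q V0 y := by rw [hb]; exact mem_itm hw
        have i2 : o (itm M Q V0 y) y < o (itm M Q V0 y) u := hin y hy u hu huy.symm h2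
        have i3 : o (itm M Q V0 y) u < o (itm M Q V0 y) w := by
          have := hin u hu w hw (huy.trans hb) h3
          rwa [huy] at this
        have hxC : x ∉ itm M Q V0 y := by
          intro hh
          exact ha ((itm_eq hk.sub hy hx hh).trans huy.symm)
        simp only [if_neg ha, if_pos hb] at hpg
        rw [Prod.mk.injEq] at hpg
        refine hP2 y my w mw hyw ?_ u mu ⟨x, hxC, near_symm hxu⟩ i2 i3
        have := hpg.1.symm
        simpa using this
      · simp only [if_neg ha, if_neg hb] at hpg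
        rw [Prod.mk.injEq] at hpg
        exact hcross x hx u hu y hy w hw hxu hyw ha hb hxy hyu huw hxw (ho3 x hx y hy h1)
          (ho3 y hy u hu h2) (ho3 u hu w hw h3) hpg.2
  · intro u hu w hw huw hpg x hx hxO h1 h2
    by_cases ha : itm M Q V0 u = itm M Q V0 w
    · have hxu : itm M Q V0 x = itm M Q V0 u := ho4 u hu w hw x hx ha h1 h2
      have hne : x ≠ u := fun hh => by rw [hh] at h1; exact lt_irrefl _ h1
      have hx0 : x ∉ V0 := step_notmem hu hxu hne
      exact hk.far _ (itm_comp hx hx0) x (mem_itm hx) hxO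
    · simp only [if_neg ha] at hpg
      exact absurd hpg (by decide)

end Pool.Agent.H.MP_c8cc4c_co.Pg
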