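import Mathlib
import Pool.Agent.H.MP_c8cc4c_co.P.Step
import Pool.Agent.H.MP_c8cc4c_co.P.Cross
import Pool.Agent.H.MP_c8cc4c_co.P.Count

/-! # MP_c8cc4c_co, part P (pages), file Region: one region (helper35) -/

open scoped Classical
open Finset

noncomputable section

namespace Pool.Agent.H.MP_c8cc4c_co.Pg

variable {M : PC}

/-- One region. `ost_split`, `exists_rep`, `exists_col` (radius `Rcol`), `X = {x ∈ Q | NearO M Q (RX r rf Λ) x}` has at most `2 Λ' (D+1)^RX` elements (`nearO_card`), numbering `f`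
(`exists_num`). If `u ∈ Q` is at distance at most `r` from `w ∉ itm u` and `u ∉ X` then `rp u` is not within `r + rf` of the complement (`rp_near`, `nearO_near`,
`RX = r + rf + Rrep`).
Labels: `col' u w = inl (f u)` if `u ∈ X`, otherwise `inl (f w)` if `w ∈ X`, otherwise `inr (ty u w, col u, col w)`, `ty u w` = truth value of
`Lnk M Sᶜ (Rlk ..) (g (idx (rp u))) (g (idx (rp w))) u`.
If all vertices of `V0` are within `rf` of the complement then `pos = 0`, and every pair between different items has both ends in `X` (`rp u ∈ V0` is within `rf`);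
equal labels `inl` mean a common end (`InjOn`), excluded by `x ≠ y`, .... Otherwise `ContourStmt` for `T = M.sdPC`, `S` gives `m, g`; `exists_idx`; `pos u = idx (rp u)` (`Rep.const`);
equal labels `inr`: same colours and same truth value, so (`link`) both pairs have a link in `Sᶜ` or both have a link in `S`; `no_cross` gives `Near (Rcol) x y` or
`Near (Rcol) u w`, contradiction to the colours. Then `lay_step`; the children satisfy the induction hypothesis: they are proper subsets of `Q`
(`kids_ne`). -/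
theorem region (hSd : SdStmt) (hCt : ContourStmt) (hAlt : AltStmt) (hFr : FrontierStmt)
    (hM : M.IsSphere) (hQd : M.Quad) {D : ℕ} (hD : ∀ v, M.deg v ≤ D)
    {r Λ Λ' rf C1 C2 : ℕ} (hr : 1 ≤ r) {Q : Set M.V} (hQ : ConnOn M.graph Q)
    (hQ' : ConnOn M.graph Qᶜ) (hcut : (M.cut Q).card ≤ Λ')
    (h : OSTOut M Q r Λ rf C1 C2)
    (IH : ∀ C : Set M.V, C ⊂ Q → ConnOn M.graph C → ConnOn M.graph Cᶜ →
      (M.cut C).card ≤ Λ → Lay M r (Lab D r Λ Λ' rf C1 C2) C) :
    Lay M r (Lab D r Λ Λ' rf C1 C2) Q := by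
  obtain ⟨V0, hk, hV⟩ := ost_split h
  obtain ⟨o, hoQ⟩ := hQ'.1
  obtain ⟨q, hqQ⟩ := hQ.1
  have hqo : q ≠ o := by
    rintro rfl
    exact hoQ hqQ
  have hne : ∃ x y : M.V, x ≠ y := ⟨q, o, hqo⟩
  obtain ⟨rp, hrp⟩ := exists_rep hM hk hr hQ hQ'.1
  obtain ⟨col, hcol⟩ := exists_col hM D hD (Rcol r Λ C1 C2)
  have hX : {x | x ∈ Q ∧ NearO M Q (RX r rf Λ) x}.ncard ≤ 2 * Λ' * (D + 1) ^ (RX r rf Λ) :=
    (nearO_card hM D hD Q (RX r rf Λ)).trans
      (Nat.mul_le_mul_right _ (Nat.mul_le_mul_left _ hcut))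
  obtain ⟨f, hf⟩ := exists_num _ _ hX
  have hfar : ∀ u ∈ Q, ∀ w ∈ Q, itm M Q V0 u ≠ itm M Q V0 w → Near M.graph Set.univ r u w →
      ¬ NearO M Q (RX r rf Λ) u → ¬ NearO M Q (r + rf) (rp u) := by
    intro u hu w hw hi hn hX' hO
    have hwu : w ∉ itm M Q V0 u := fun hh => hi (itm_eq hk.sub hu hw hh).symm
    have h1 := nearO_near (rp_near hM hQd hSd hFr hk hrp hu hwu hn) hO
    refine hX' (nearO_mono ?_ h1)
    unfold RX
    omega
  -- positions and types
  obtain ⟨pos, ty, hpos, hcr⟩ : ∃ (pos : M.V → ℕ) (ty : M.V → M.V → Bool),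
      (∀ u ∈ Q, ∀ w ∈ Q, itm M Q V0 u = itm M Q V0 w → pos u = pos w) ∧
      ∀ x ∈ Q, ∀ u ∈ Q, ∀ y ∈ Q, ∀ w ∈ Q, Near M.graph Set.univ r x u →
        Near M.graph Set.univ r y w → itm M Q V0 x ≠ itm M Q V0 u →
        itm M Q V0 y ≠ itm M Q V0 w → pos x ≤ pos y → pos y ≤ pos u → pos u ≤ pos w →
        ¬ NearO M Q (RX r rf Λ) x → ¬ NearO M Q (RX r rf Λ) u → ¬ NearO M Q (RX r rf Λ) y →
        ¬ NearO M Q (RX r rf Λ) w → ty x u = ty y w →
        Near M.graph Set.univ (Rcol r Λ C1 C2) x y ∨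
          Near M.graph Set.univ (Rcol r Λ C1 C2) u w := by
    rcases hV with hV | ⟨S, hS⟩
    · refine ⟨fun _ => 0, fun _ _ => false, fun _ _ _ _ _ => rfl, ?_⟩
      intro x hx u hu y hy w hw hxu hyw hi hi' _ _ _ nx nu ny nw _
      exact absurd (nearO_mono (Nat.le_add_left _ _) (hV _ (hrp.mem x hx)))
        (hfar x hx u hu hi hxu nx)
    · obtain ⟨f0, -⟩ := exists_at hM hqo
      obtain ⟨hT1, hT2, hT3⟩ := hSd M hM ⟨f0⟩
      obtain ⟨m, g, hm, hper, hinj, hcutg, htri⟩ := hCt M.sdPC hT1 hT2 hT3 S hS.conn hS.conn'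
      obtain ⟨idx, hlt, hidx⟩ := exists_idx hM hk hS hne hm hper hcutg
      refine ⟨fun u => idx (rp u), fun u w => decide (Lnk M Sᶜ (Rlk r Λ C1 C2) (g (idx (rp u)))
        (g (idx (rp w))) u), ?_, ?_⟩
      · intro u hu w hw hi
        show idx (rp u) = idx (rp w)
        rw [hrp.const u hu w hw hi]
      · intro x hx u hu y hy w hw hxu hyw hi hi' h1 h2 h3 nx nu ny nw hty
        have fx := hfar x hx u hu hi hxu nx
        have fu := hfar u hu x hx hi.symm (near_symm hxu) nu
        have fy := hfar y hy w hw hi' hyw ny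
        have fw := hfar w hw y hy hi'.symm (near_symm hyw) nw
        have l1 := link hM hQd hSd hFr hk hS hrp hidx hx hu hi hxu fx fu
        have l2 := link hM hQd hSd hFr hk hS hrp hidx hy hw hi' hyw fy fw
        by_cases ht : Lnk M Sᶜ (Rlk r Λ C1 C2) (g (idx (rp x))) (g (idx (rp u))) x
        · have ht' : Lnk M Sᶜ (Rlk r Λ C1 C2) (g (idx (rp y))) (g (idx (rp w))) y := by
            have h5 := hty.symm
            simp only [ht, decide_true] at h5
            exact of_decide_eq_true h5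
          exact no_cross hM hQd hSd hFr hAlt hk hS hne hrp hm hper hinj hcutg htri hlt hidx
            hx hu hy hw hxu hyw hi hi' fx fu fy fw h1 h2 h3 (Or.inr rfl) ht ht'
        · have ht' : ¬ Lnk M Sᶜ (Rlk r Λ C1 C2) (g (idx (rp y))) (g (idx (rp w))) y := by
            have h5 := hty.symm
            simp only [ht, decide_false] at h5
            exact of_decide_eq_false h5
          exact no_cross hM hQd hSd hFr hAlt hk hS hne hrp hm hper hinj hcutg htri hlt hidx
            hx hu hy hw hxu hyw hi hi' fx fu fy fw h1 h2 h3 (Or.inl rfl)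
            (l1.resolve_left ht) (l2.resolve_left ht')
  have : Nonempty (Lab D r Λ Λ' rf C1 C2) := by
    unfold Lab
    exact ⟨Sum.inl 0⟩
  refine lay_step hk ?_ pos hpos (fun u w => if NearO M Q (RX r rf Λ) u then Sum.inl (f u) else
    if NearO M Q (RX r rf Λ) w then Sum.inl (f w) else Sum.inr (ty u w, col u, col w)) ?_
  · intro C hC
    refine IH C ?_ hC.1 (hk.compl C hC) (hk.cut C hC)
    refine lt_of_le_of_ne (fun x hx => (hC.2.1 hx).1) ?_
    exact kids_ne hM hk hr ⟨q, hqQ⟩ ⟨o, hoQ⟩ hC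
  · intro x hx u hu y hy w hw hxu hyw hi hi' hxy hyu huw hxw h1 h2 h3 heq
    have hinj : ∀ a ∈ Q, ∀ b ∈ Q, NearO M Q (RX r rf Λ) a → NearO M Q (RX r rf Λ) b →
        f a = f b → a = b := fun a ha b hb na nb hab => hf ⟨ha, na⟩ ⟨hb, nb⟩ hab
    by_cases nx : NearO M Q (RX r rf Λ) x
    · rw [if_pos nx] at heq
      by_cases ny : NearO M Q (RX r rf Λ) y
      · rw [if_pos ny] at heq
        exact hxy (hinj x hx y hy nx ny (Sum.inl.inj heq))
      · rw [if_neg ny] at heq
        by_cases nw : NearO M Q (RX r rf Λ) w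
        · rw [if_pos nw] at heq
          exact hxw (hinj x hx w hw nx nw (Sum.inl.inj heq))
        · rw [if_neg nw] at heq
          exact absurd heq (by simp)
    · rw [if_neg nx] at heq
      by_cases nu : NearO M Q (RX r rf Λ) u
      · rw [if_pos nu] at heq
        by_cases ny : NearO M Q (RX r rf Λ) y
        · rw [if_pos ny] at heq
          exact hyu (hinj y hy u hu ny nu (Sum.inl.inj heq).symm)
        · rw [if_neg ny] at heq
          by_cases nw : NearO M Q (RX r rf Λ) w
          · rw [if_pos nw] at heq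
            exact huw (hinj u hu w hw nu nw (Sum.inl.inj heq))
          · rw [if_neg nw] at heq
            exact absurd heq (by simp)
      · rw [if_neg nu] at heq
        by_cases ny : NearO M Q (RX r rf Λ) y
        · rw [if_pos ny] at heq
          exact absurd heq (by simp)
        · rw [if_neg ny] at heq
          by_cases nw : NearO M Q (RX r rf Λ) w
          · rw [if_pos nw] at heq
            exact absurd heq (by simp)
          · rw [if_neg nw] at heq
            have h5 := Sum.inr.inj heq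
            rw [Prod.mk.injEq, Prod.mk.injEq] at h5
            obtain ⟨e1, e2, e3⟩ := h5
            rcases hcr x hx u hu y hy w hw hxu hyw hi hi' h1 h2 h3 nx nu ny nw e1 with h6 | h6
            · exact hcol x y hxy h6 e2
            · exact hcol u w huw h6 e3

end Pool.Agent.H.MP_c8cc4c_co.Pg
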