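import Mathlib
import Pool.Agent.H.MP_c8cc4c_co.P.Count

/-! # MP_c8cc4c_co, part P (pages), file Remove: removing a vertex (helper35) -/

open scoped Classical
open Finset

noncomputable section

namespace Pool.Agent.H.MP_c8cc4c_co.Pg

variable {M : PC}

/-- the sum of all values of the boundary of an edge chain is zero -/
theorem remove_dE_sum (hM : M.IsSphere) (z : M.E → ZMod 2) : ∑ v, M.dE z v = 0 := by
  unfold PC.dE
  simp_rw [sum_filter]
  rw [sum_comm]
  refine sum_eq_zero fun e _ => ?_
  obtain ⟨x, y, hxy, hinc⟩ := hM.inc_two e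
  rw [← sum_filter]
  have h1 : (univ.filter fun v => M.inc e v) = {x, y} := by
    ext v
    rw [mem_filter, hinc, mem_insert, mem_singleton]
    exact ⟨fun h => h.2, fun h => ⟨mem_univ _, h⟩⟩
  rw [h1, sum_pair hxy]
  exact CharTwo.add_self_eq_zero (z e)

theorem remove_ev (hM : M.IsSphere) (o : M.V) {z : M.E → ZMod 2}
    (h : ∀ v, v ≠ o → M.dE z v = 0) : M.Ev z := by
  intro v
  by_cases hv : v = o
  · have h1 := remove_dE_sum hM z
    rw [sum_eq_single o (fun b _ hb => h b hb) (fun hb => absurd (mem_univ _) hb)] at h1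
    rw [hv]
    exact h1
  · exact h v hv

theorem remove_dE_face (hM : M.IsSphere) {f : M.F} {z : M.E → ZMod 2} {v : M.V}
    (hz : ∀ e, M.inc e v → z e = if M.bd f e then 1 else 0) : M.dE z v = 0 := by
  have h1 : M.dE z v = ∑ e ∈ univ.filter (fun e => M.inc e v), if M.bd f e then (1 : ZMod 2)
      else 0 := sum_congr rfl fun e he => hz e (mem_filter.1 he).2
  rw [h1, ← sum_filter]
  by_cases hf : M.At f v
  · obtain ⟨e, e', hne, he⟩ := hM.face_two f v hf
    have h2 : (univ.filter fun e => M.inc e v).filter (fun e => M.bd f e) = {e, e'} := by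
      ext d
      rw [mem_filter, mem_filter, mem_insert, mem_singleton, ← he d]
      exact ⟨fun h => ⟨h.2, h.1.2⟩, fun h => ⟨⟨mem_univ _, h.2⟩, h.1⟩⟩
    rw [h2, sum_pair hne]
    exact CharTwo.add_self_eq_zero 1
  · rw [sum_eq_zero]
    intro d hd
    exact absurd ⟨d, (mem_filter.1 hd).2, (mem_filter.1 (mem_filter.1 hd).1).2⟩ hf

theorem remove_claim (hM : M.IsSphere) {o : M.V} {X : Set M.V}
    (hX : ∀ x ∈ X, ∀ y, y ≠ o → M.graph.Adj x y → y ∈ X) {f : M.F} {x : M.V} (hx : x ∈ X)
    (hf : M.At f x) : ∀ y, M.At f y → y ∈ X ∨ y = o := by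
  have hend : ∀ e a b, M.inc e a → a ∈ X → M.inc e b → b ∈ X ∨ b = o := by
    intro e a b ha haX hb
    by_cases hab : a = b
    · exact Or.inl (hab ▸ haX)
    · by_cases hbo : b = o
      · exact Or.inr hbo
      · exact Or.inl (hX a haX b hbo ⟨hab, e, ha, hb⟩)
  have hEv : M.Ev fun e => if M.bd f e ∧ ∃ a, M.inc e a ∧ a ∈ X then (1 : ZMod 2) else 0 := by
    refine remove_ev hM o fun v hv => ?_
    by_cases hvX : v ∈ X
    · refine remove_dE_face hM (f := f) fun e he => ?_
      by_cases hbd : M.bd f e
      · rw [if_pos ⟨hbd, v, he, hvX⟩, if_pos hbd]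
      · rw [if_neg fun h => hbd h.1, if_neg hbd]
    · refine sum_eq_zero fun e he => if_neg ?_
      rintro ⟨-, a, ha, haX⟩
      rcases hend e a v ha haX (mem_filter.1 he).2 with h | h
      · exact hvX h
      · exact hv h
  have hbd : ∀ e, (if M.bd f e ∧ ∃ a, M.inc e a ∧ a ∈ X then (1 : ZMod 2) else 0) ≠ 0 →
      M.bd f e ∧ ∃ a, M.inc e a ∧ a ∈ X := by
    intro e he
    by_contra h
    exact he (if_neg h)
  rcases hM.face_cyc f _ hEv (fun e he => (hbd e he).1) with h0 | h0
  · exfalso
    obtain ⟨e, he, hex⟩ := hf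
    have h1 := congrFun h0 e
    have h2 : (if M.bd f e ∧ ∃ a, M.inc e a ∧ a ∈ X then (1 : ZMod 2) else 0) = 0 := h1
    rw [if_pos ⟨he, x, hex, hx⟩] at h2
    exact one_ne_zero h2
  · rintro y ⟨e, he, hey⟩
    obtain ⟨-, a, ha, haX⟩ := hbd e (h0 e he)
    exact hend e a y ha haX hey

/-- A sphere minus a vertex is connected. Suppose not; let `X` be a component of `{x | x ≠ o}` (`comp_isComp`) and `y ≠ o` not in `X`. Call a face good if all its
vertices are in `X ∪ {o}`, and let `c` be the indicator of the good faces. Claim: every face with a vertex in `X` is good. Let `z e = 1` iff `bd f e` and `e` has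
an end in `X` (then both ends are in `X ∪ {o}`, as there is no edge from `X` to the rest). `z` is even: at a vertex of `X` both edges of `f` are in `z` (`face_two`), at
a vertex outside `X ∪ {o}` none; at `o` because the sum of all `dE z v` is zero (`Σ_v dE z v = Σ_e z e * 2`). So (`face_cyc`) `z = 0` or `z` is all of `bd f`. So for every
edge `e` its two faces are both good or both not good: if `e` has an end in `X` both are good (claim), otherwise it has an end outside `X ∪ {o}` (two different
ends, not both `o`) and both are not good. So `dF c = 0`, `c` is constant (`const_of_dF`); but there is a good face (at a vertex of `X`) and a face which is not good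
(at `y`): `exists_at`. -/
theorem conn_remove (hM : M.IsSphere) (o : M.V) (hne : ∃ x, x ≠ o) :
    ConnOn M.graph {x | x ≠ o} := by
  obtain ⟨x0, hx0⟩ := hne
  have hx0' : x0 ∈ {x | x ≠ o} := hx0
  refine connOn_of_center hx0' fun y hy => ?_
  by_contra hcon
  have hcomp := comp_isComp (G := M.graph) hx0'
  have hyX : y ∉ comp M.graph {x | x ≠ o} x0 := hcon
  have hxX : x0 ∈ comp M.graph {x | x ≠ o} x0 := mem_comp_self hx0'
  generalize comp M.graph {x | x ≠ o} x0 = X at hcomp hyX hxX
  have hX : ∀ x ∈ X, ∀ y, y ≠ o → M.graph.Adj x y → y ∈ X := fun x hx y hy h =>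
    hcomp.2.2 x hx y hy h
  have hy' : y ≠ o := hy
  have hd : M.dF (fun f => if ∀ a, M.At f a → a ∈ X ∨ a = o then (1 : ZMod 2) else 0) = 0 := by
    funext e
    refine (dF_zero_iff hM _).2 fun f g hf hg => ?_
    by_cases h1 : ∃ a, M.inc e a ∧ a ∈ X
    · obtain ⟨a, ha, haX⟩ := h1
      have h2 := remove_claim hM hX haX ⟨e, hf, ha⟩
      have h3 := remove_claim hM hX haX ⟨e, hg, ha⟩
      rw [if_pos h2, if_pos h3]
    · have h2 : ∃ a, M.inc e a ∧ a ≠ o := by
        obtain ⟨a, b, hab, hinc⟩ := hM.inc_two e
        by_cases hao : a = o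
        · exact ⟨b, (hinc b).2 (Or.inr rfl), fun hb => hab (hao.trans hb.symm)⟩
        · exact ⟨a, (hinc a).2 (Or.inl rfl), hao⟩
      obtain ⟨a, ha, hao⟩ := h2
      have haX : a ∉ X := fun h => h1 ⟨a, ha, h⟩
      have h3 : ∀ k, M.bd k e → ¬ ∀ a, M.At k a → a ∈ X ∨ a = o := by
        intro k hk h4
        rcases h4 a ⟨e, hk, ha⟩ with h5 | h5
        · exact haX h5
        · exact hao h5
      rw [if_neg (h3 f hf), if_neg (h3 g hg)]
  obtain ⟨f, hf⟩ := exists_at hM hx0
  obtain ⟨g, hg⟩ := exists_at hM hy'
  have h1 := const_of_dF hM hd f g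
  have h2 : ¬ ∀ a, M.At g a → a ∈ X ∨ a = o := by
    intro h4
    rcases h4 y hg with h5 | h5
    · exact hyX h5
    · exact hy' h5
  simp only [if_pos (remove_claim hM hX hxX hf), if_neg h2] at h1
  exact one_ne_zero h1

theorem remove_cut_le (o : M.V) (S : Set M.V) (hS : ∀ y, y ∉ S → y = o) :
    (M.cut S).card ≤ M.deg o := by
  refine card_le_card fun e he => ?_
  obtain ⟨-, y, hy, hyo⟩ := (mem_filter.1 he).2
  exact mem_filter.2 ⟨mem_univ _, hS y hyo ▸ hy⟩

/-- the edges with exactly one end different from `o` are edges at `o` -/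
theorem cut_remove (o : M.V) : (M.cut {x | x ≠ o}).card ≤ M.deg o := by
  refine remove_cut_le o _ fun y hy => ?_
  by_contra h
  exact hy h

/-- the page of a pair -/
def remove_page {β : Type} (o : M.V) (ord : M.V → ℕ) (pg : M.V → M.V → Bool × β) (u w : M.V) :
    Option (Bool × β) :=
  if u = o ∨ w = o then none else some (if ord u < ord w then pg u w else pg w u)

theorem remove_page_symm {β : Type} (o : M.V) {ord : M.V → ℕ} (pg : M.V → M.V → Bool × β)
    (h : Set.InjOn ord {x | x ≠ o}) (u w : M.V) :
    remove_page o ord pg u w = remove_page o ord pg w u := by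
  unfold remove_page
  by_cases h1 : u = o ∨ w = o
  · rw [if_pos h1, if_pos h1.symm]
  · have h2 : ¬ (w = o ∨ u = o) := fun h2 => h1 h2.symm
    rw [if_neg h1, if_neg h2]
    congr 1
    rcases lt_trichotomy (ord u) (ord w) with h3 | h3 | h3
    · rw [if_pos h3, if_neg (not_lt_of_gt h3)]
    · have h4 : u = w := h (fun h5 => h1 (Or.inl h5)) (fun h5 => h1 (Or.inr h5)) h3
      rw [h4]
    · rw [if_neg (not_lt_of_gt h3), if_pos h3]

/-- From a layout of `V \ {o}` to an order and pages for all pairs: `pos o = 0`, `pos x = ord x + 1`; page of `s(u, w)`: `none` if one of them is `o` or `u = w`,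
otherwise `some` of the label of the pair ordered by `ord` (`Sym2.lift`; note that `ord` is injective on `{x | x ≠ o}`). Pairs with a common end do not cross. -/
theorem of_lay {r : ℕ} {β : Type} (o : M.V) (h : Lay M r β {x | x ≠ o}) :
    ∃ (pos : M.V → ℕ) (page : Sym2 M.V → Option (Bool × β)), Function.Injective pos ∧
      ∀ x y u w, Near M.graph Set.univ r x u → Near M.graph Set.univ r y w →
        pos x < pos y → pos y < pos u → pos u < pos w → page s(x, u) ≠ page s(y, w) := by
  obtain ⟨ord, pg, hinj, h1, -⟩ := h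
  refine ⟨fun x => if x = o then 0 else ord x + 1,
    Sym2.lift ⟨remove_page o ord pg, remove_page_symm o pg hinj⟩, ?_, ?_⟩
  · intro x y hxy
    have hxy' : (if x = o then 0 else ord x + 1) = if y = o then 0 else ord y + 1 := hxy
    by_cases hx : x = o
    · by_cases hy : y = o
      · exact hx.trans hy.symm
      · rw [if_pos hx, if_neg hy] at hxy'
        omega
    · by_cases hy : y = o
      · rw [if_neg hx, if_pos hy] at hxy'
        omega
      · rw [if_neg hx, if_neg hy] at hxy'
        exact hinj hx hy (by omega)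
  · intro x y u w hxu hyw hxy hyu huw
    have hxy' : (if x = o then 0 else ord x + 1) < if y = o then 0 else ord y + 1 := hxy
    have hyu' : (if y = o then 0 else ord y + 1) < if u = o then 0 else ord u + 1 := hyu
    have huw' : (if u = o then 0 else ord u + 1) < if w = o then 0 else ord w + 1 := huw
    have hy : y ≠ o := by
      intro hy
      rw [if_pos hy] at hxy'
      omega
    have hu : u ≠ o := by
      intro hu
      rw [if_pos hu] at hyu'
      omega
    have hw : w ≠ o := by
      intro hw
      rw [if_pos hw] at huw'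
      omega
    rw [if_neg hy] at hxy' hyu'
    rw [if_neg hu] at hyu' huw'
    rw [if_neg hw] at huw'
    have hyu2 : ord y < ord u := by omega
    have huw2 : ord u < ord w := by omega
    show remove_page o ord pg x u ≠ remove_page o ord pg y w
    have e2 : remove_page o ord pg y w = some (pg y w) := by
      unfold remove_page
      rw [if_neg (by rintro (h | h); exacts [hy h, hw h]), if_pos (hyu2.trans huw2)]
    rw [e2]
    by_cases hx : x = o
    · have e1 : remove_page o ord pg x u = none := if_pos (Or.inl hx)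
      rw [e1]
      exact (Option.some_ne_none _).symm
    · rw [if_neg hx] at hxy'
      have hxy2 : ord x < ord y := by omega
      have e1 : remove_page o ord pg x u = some (pg x u) := by
        unfold remove_page
        rw [if_neg (by rintro (h | h); exacts [hx h, hu h]), if_pos (hxy2.trans hyu2)]
      rw [e1]
      intro h5
      exact h1 x hx u hu y hy w hw hxu hyw hxy2 hyu2 huw2 (Option.some.inj h5)

end Pool.Agent.H.MP_c8cc4c_co.Pg
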