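import Mathlib
import Pool.Agent.H.MP_c8cc4c_co.P.Region
import Pool.Agent.H.MP_c8cc4c_co.P.Remove

/-! # MP_c8cc4c_co, part P (pages), file Main: the theorem of part P (helper35) -/

open scoped Classical
open Finset

noncomputable section

namespace Pool.Agent.H.MP_c8cc4c_co.Pg

variable {M : PC}

/-- Induction on the number of elements of `Q` with `region` (`Λ ≤ Λ'`). -/
theorem lay_all (hSd : SdStmt) (hCt : ContourStmt) (hAlt : AltStmt) (hFr : FrontierStmt)
    (hM : M.IsSphere) (hQd : M.Quad) {D : ℕ} (hD : ∀ v, M.deg v ≤ D)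
    {r Λ Λ' rf C1 C2 : ℕ} (hr : 1 ≤ r) (hΛ : Λ ≤ Λ')
    (hO : ∀ Q : Set M.V, ConnOn M.graph Q → ConnOn M.graph Qᶜ → OSTOut M Q r Λ rf C1 C2)
    (n : ℕ) : ∀ Q : Set M.V, Q.ncard ≤ n → ConnOn M.graph Q → ConnOn M.graph Qᶜ →
      (M.cut Q).card ≤ Λ' → Lay M r (Lab D r Λ Λ' rf C1 C2) Q := by
  induction n with
  | zero =>
    intro Q hn hQ
    have h1 : 0 < Q.ncard := (Set.ncard_pos (Set.toFinite Q)).2 hQ.1
    omega
  | succ n ih =>
    intro Q hn hQ hQ' hcut
    refine region hSd hCt hAlt hFr hM hQd hD hr hQ hQ' hcut (hO Q hQ hQ') ?_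
    intro C hC hCc hCc' hCcut
    have h1 := Set.ncard_lt_ncard hC (Set.toFinite Q)
    exact ih C (by omega) hCc hCc' (hCcut.trans hΛ)

/-- `PowersBound` is monotone in `r` (downwards). -/
theorem powersBound_mono {D r r' b : ℕ} (h : r ≤ r') (hb : PowersBound D r' b) :
    PowersBound D r b := by
  intro M hM hQ hS hD
  obtain ⟨pos, page, h1, h2⟩ := hb M hM hQ hS hD
  refine ⟨pos, page, h1, ?_⟩
  intro x y u w hxu hyw
  exact h2 x y u w (near_mono hxu h (le_refl _)) (near_mono hyw h (le_refl _))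

/-- The case `1 ≤ r`. `Λ' = max Λ D`, `b = card (Option (Bool × Lab ..))`. If `M` has only one vertex everything is trivial (there is an injective `pos` and the
hypotheses `pos x < pos y` are never satisfied). Otherwise take any vertex `o`, `Q = {x | x ≠ o}` (`conn_remove`, `cut_remove`, `connOn_singleton`), `lay_all`,
`of_lay`, and compose the pages with `Fintype.equivFin`. -/
theorem powers_pos (hSd : SdStmt) (hCt : ContourStmt) (hAlt : AltStmt) (hFr : FrontierStmt)
    (hO : OSTStmt) (D r : ℕ) (hr : 1 ≤ r) : ∃ b : ℕ, 0 < b ∧ PowersBound D r b := by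
  obtain ⟨Λ, rf, C1, C2, hOST⟩ := hO D r
  have hb : 0 < Fintype.card (Option (Bool × Lab D r Λ (max Λ D) rf C1 C2)) := Fintype.card_pos
  refine ⟨Fintype.card (Option (Bool × Lab D r Λ (max Λ D) rf C1 C2)), hb, ?_⟩
  intro M hM hQ hS hD
  obtain ⟨o⟩ := hM.nonempty
  by_cases hne : ∃ x, x ≠ o
  · have hcompl : ({x | x ≠ o} : Set M.V)ᶜ = {o} := by
      ext x
      simp
    have hlay := lay_all hSd hCt hAlt hFr hM hQ hD hr (le_max_left Λ D)
      (fun Q h1 h2 => hOST M hM hQ hS hD Q h1 h2) _ {x | x ≠ o} le_rfl (conn_remove hM o hne)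
      (by rw [hcompl]; exact connOn_singleton o)
      (((cut_remove o).trans (hD o)).trans (le_max_right Λ D))
    obtain ⟨pos, page, hpos, hpage⟩ := of_lay o hlay
    refine ⟨pos, fun s => Fintype.equivFin _ (page s), hpos, ?_⟩
    intro x y u w hxu hyw h1 h2 h3 hcon
    exact hpage x y u w hxu hyw h1 h2 h3 ((Fintype.equivFin _).injective hcon)
  · push Not at hne
    refine ⟨fun _ => 0, fun _ => ⟨0, hb⟩, ?_, ?_⟩
    · intro x y _
      rw [hne x, hne y]
    · intro x y u w _ _ h1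
      exact absurd h1 (lt_irrefl _)

theorem powers : PowersStmt := by
  intro hSd hCt hAlt hFr hO D r
  obtain ⟨b, hb, h⟩ := powers_pos hSd hCt hAlt hFr hO D (max r 1) (le_max_right _ _)
  exact ⟨b, hb, powersBound_mono (le_max_left _ _) h⟩

end Pool.Agent.H.MP_c8cc4c_co.Pg
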